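import Pool.Agent.HWZ.St

/-!
helper12. HWZ, module CUBE: `R + X ^ 2 R + X ^ 4 R`.
-/

set_option autoImplicit false

namespace Pool.Agent.HWZ

open PowerSeries

variable {k : Type} [Field k]

/-- the sums `r0 + X ^ 2 r1 + X ^ 4 r2` -/
private def Cube_S (O : Subalgebra k (PowerSeries k)) : Submodule k (PowerSeries k) where
  carrier := {q | ∃ r0 r1 r2 : PowerSeries k, r0 ∈ R O ∧ r1 ∈ R O ∧ r2 ∈ R O ∧
    q = r0 + X ^ 2 * r1 + X ^ 4 * r2}
  add_mem' := by
    rintro a b ⟨r0, r1, r2, h0, h1, h2, rfl⟩ ⟨s0, s1, s2, g0, g1, g2, rfl⟩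
    exact ⟨r0 + s0, r1 + s1, r2 + s2, (R O).add_mem h0 g0, (R O).add_mem h1 g1,
      (R O).add_mem h2 g2, by ring⟩
  zero_mem' := ⟨0, 0, 0, (R O).zero_mem, (R O).zero_mem, (R O).zero_mem, by ring⟩
  smul_mem' := by
    rintro c a ⟨r0, r1, r2, h0, h1, h2, rfl⟩
    refine ⟨c • r0, c • r1, c • r2, (R O).smul_mem h0 c, (R O).smul_mem h1 c,
      (R O).smul_mem h2 c, ?_⟩
    rw [smul_add, smul_add, mul_smul_comm, mul_smul_comm]

private theorem Cube_0 {O : Subalgebra k (PowerSeries k)} {f : PowerSeries k} (h : f ∈ R O) :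
    f ∈ Cube_S O :=
  ⟨f, 0, 0, h, (R O).zero_mem, (R O).zero_mem, by ring⟩

private theorem Cube_2 {O : Subalgebra k (PowerSeries k)} {f : PowerSeries k} (h : f ∈ R O) :
    X ^ 2 * f ∈ Cube_S O :=
  ⟨0, f, 0, (R O).zero_mem, h, (R O).zero_mem, by ring⟩

private theorem Cube_4 {O : Subalgebra k (PowerSeries k)} {f : PowerSeries k} (h : f ∈ R O) :
    X ^ 4 * f ∈ Cube_S O :=
  ⟨0, 0, f, (R O).zero_mem, (R O).zero_mem, h, by ring⟩

private theorem Cube_mono {O : Subalgebra k (PowerSeries k)} (hO : Adm O) (m : ℕ)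
    (hm : m = 24 ∨ m = 26 ∨ m = 40 ∨ m = 25 ∨ m = 27 ∨ m = 33 ∨ m = 69) :
    (X ^ m : PowerSeries k) ∈ R O := by
  refine ⟨hO.pow_mem m, ?_⟩
  rcases hm with rfl | rfl | rfl | rfl | rfl | rfl | rfl <;>
    constructor <;> first
    | (intro n h1 h2; rw [coeff_X_pow, if_neg (by omega)])
    | simp [coeff_X_pow]

private theorem Cube_sub {O : Subalgebra k (PowerSeries k)} (hO : Adm O) (m m' : ℕ)
    (hm : (m = 30 ∧ m' = 34) ∨ (m = 32 ∧ m' = 36) ∨ (m = 29 ∧ m' = 43)) :
    (X ^ m - X ^ m' : PowerSeries k) ∈ R O := by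
  refine ⟨O.sub_mem (hO.pow_mem m) (hO.pow_mem m'), ?_⟩
  rcases hm with ⟨rfl, rfl⟩ | ⟨rfl, rfl⟩ | ⟨rfl, rfl⟩ <;>
    constructor <;> first
    | (intro n h1 h2; rw [map_sub, coeff_X_pow, coeff_X_pow, if_neg (by omega), if_neg (by omega),
        sub_zero])
    | simp [coeff_X_pow]

private theorem Cube_add {O : Subalgebra k (PowerSeries k)} (hO : Adm O) (m m' : ℕ)
    (hm : (m = 28 ∧ m' = 42) ∨ (m = 35 ∧ m' = 39) ∨ (m = 37 ∧ m' = 41)) :
    (X ^ m + X ^ m' : PowerSeries k) ∈ R O := by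
  refine ⟨O.add_mem (hO.pow_mem m) (hO.pow_mem m'), ?_⟩
  rcases hm with ⟨rfl, rfl⟩ | ⟨rfl, rfl⟩ | ⟨rfl, rfl⟩ <;>
    constructor <;> first
    | (intro n h1 h2; rw [map_add, coeff_X_pow, coeff_X_pow, if_neg (by omega), if_neg (by omega),
        add_zero])
    | simp [coeff_X_pow]

private theorem Cube_mid {O : Subalgebra k (PowerSeries k)} (hO : Adm O) (i : ℕ) (hi : i < 24) :
    (X ^ (24 + i) : PowerSeries k) ∈ Cube_S O := by
  have E0 : (X ^ 24 : PowerSeries k) ∈ Cube_S O := Cube_0 (Cube_mono hO 24 (by omega))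
  have E1 : (X ^ 26 : PowerSeries k) ∈ Cube_S O := Cube_0 (Cube_mono hO 26 (by omega))
  have E8 : (X ^ 40 : PowerSeries k) ∈ Cube_S O := Cube_0 (Cube_mono hO 40 (by omega))
  have E2 : (X ^ 28 : PowerSeries k) ∈ Cube_S O := by
    have h := Cube_4 (Cube_mono hO 24 (by omega))
    rwa [← pow_add] at h
  have E3 : (X ^ 30 : PowerSeries k) ∈ Cube_S O := by
    have h := Cube_4 (Cube_mono hO 26 (by omega))
    rwa [← pow_add] at h
  have E9 : (X ^ 42 : PowerSeries k) ∈ Cube_S O := by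
    have h := Cube_2 (Cube_mono hO 40 (by omega))
    rwa [← pow_add] at h
  have E10 : (X ^ 44 : PowerSeries k) ∈ Cube_S O := by
    have h := Cube_4 (Cube_mono hO 40 (by omega))
    rwa [← pow_add] at h
  have E5 : (X ^ 34 : PowerSeries k) ∈ Cube_S O := by
    have h := (Cube_S O).sub_mem E3 (Cube_0 (Cube_sub hO 30 34 (by omega)))
    rwa [sub_sub_cancel] at h
  have E7 : (X ^ 38 : PowerSeries k) ∈ Cube_S O := by
    have h := (Cube_S O).sub_mem E5 (Cube_4 (Cube_sub hO 30 34 (by omega)))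
    have e : (X ^ 34 - X ^ 4 * (X ^ 30 - X ^ 34) : PowerSeries k) = X ^ 38 := by ring
    rwa [e] at h
  have E6 : (X ^ 36 : PowerSeries k) ∈ Cube_S O := by
    have h := (Cube_S O).add_mem E8 (Cube_4 (Cube_sub hO 32 36 (by omega)))
    have e : (X ^ 40 + X ^ 4 * (X ^ 32 - X ^ 36) : PowerSeries k) = X ^ 36 := by ring
    rwa [e] at h
  have E4 : (X ^ 32 : PowerSeries k) ∈ Cube_S O := by
    have h := (Cube_S O).add_mem E6 (Cube_0 (Cube_sub hO 32 36 (by omega)))
    have e : (X ^ 36 + (X ^ 32 - X ^ 36) : PowerSeries k) = X ^ 32 := by ring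
    rwa [e] at h
  have E11 : (X ^ 46 : PowerSeries k) ∈ Cube_S O := by
    have h := (Cube_S O).sub_mem (Cube_4 (Cube_add hO 28 42 (by omega))) E4
    have e : (X ^ 4 * (X ^ 28 + X ^ 42) - X ^ 32 : PowerSeries k) = X ^ 46 := by ring
    rwa [e] at h
  have O0 : (X ^ 25 : PowerSeries k) ∈ Cube_S O := Cube_0 (Cube_mono hO 25 (by omega))
  have O1 : (X ^ 27 : PowerSeries k) ∈ Cube_S O := Cube_0 (Cube_mono hO 27 (by omega))
  have O4 : (X ^ 33 : PowerSeries k) ∈ Cube_S O := Cube_0 (Cube_mono hO 33 (by omega))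
  have O2 : (X ^ 29 : PowerSeries k) ∈ Cube_S O := by
    have h := Cube_4 (Cube_mono hO 25 (by omega))
    rwa [← pow_add] at h
  have O3 : (X ^ 31 : PowerSeries k) ∈ Cube_S O := by
    have h := Cube_4 (Cube_mono hO 27 (by omega))
    rwa [← pow_add] at h
  have O5 : (X ^ 35 : PowerSeries k) ∈ Cube_S O := by
    have h := Cube_2 (Cube_mono hO 33 (by omega))
    rwa [← pow_add] at h
  have O6 : (X ^ 37 : PowerSeries k) ∈ Cube_S O := by
    have h := Cube_4 (Cube_mono hO 33 (by omega))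
    rwa [← pow_add] at h
  have O9 : (X ^ 43 : PowerSeries k) ∈ Cube_S O := by
    have h := (Cube_S O).sub_mem O2 (Cube_0 (Cube_sub hO 29 43 (by omega)))
    rwa [sub_sub_cancel] at h
  have O7 : (X ^ 39 : PowerSeries k) ∈ Cube_S O := by
    have h := (Cube_S O).sub_mem (Cube_0 (Cube_add hO 35 39 (by omega))) O5
    rwa [add_sub_cancel_left] at h
  have O8 : (X ^ 41 : PowerSeries k) ∈ Cube_S O := by
    have h := (Cube_S O).sub_mem (Cube_0 (Cube_add hO 37 41 (by omega))) O6
    rwa [add_sub_cancel_left] at h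
  have O10 : (X ^ 45 : PowerSeries k) ∈ Cube_S O := by
    have h := (Cube_S O).sub_mem O3 (Cube_2 (Cube_sub hO 29 43 (by omega)))
    have e : (X ^ 31 - X ^ 2 * (X ^ 29 - X ^ 43) : PowerSeries k) = X ^ 45 := by ring
    rwa [e] at h
  have O11 : (X ^ 47 : PowerSeries k) ∈ Cube_S O := by
    have h := (Cube_S O).sub_mem O4 (Cube_4 (Cube_sub hO 29 43 (by omega)))
    have e : (X ^ 33 - X ^ 4 * (X ^ 29 - X ^ 43) : PowerSeries k) = X ^ 47 := by ring
    rwa [e] at h
  interval_cases i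
  · exact E0
  · exact O0
  · exact E1
  · exact O1
  · exact E2
  · exact O2
  · exact E3
  · exact O3
  · exact E4
  · exact O4
  · exact E5
  · exact O5
  · exact E6
  · exact O6
  · exact E7
  · exact O7
  · exact E8
  · exact O8
  · exact E9
  · exact O9
  · exact E10
  · exact O10
  · exact E11
  · exact O11

private theorem Cube_high {O : Subalgebra k (PowerSeries k)} (hO : Adm O) {h : PowerSeries k}
    (hh : h ∈ O) : X ^ 48 * h ∈ Cube_S O := by
  have h1 : X ^ 48 * (h - PowerSeries.C (coeff 23 h) * X ^ 23) ∈ R O := by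
    refine ⟨O.mul_mem (hO.pow_mem 48) (O.sub_mem hh (O.mul_mem (hO.C_mem _) (hO.pow_mem 23))), ?_⟩
    have hc : ∀ n < 72, coeff n (X ^ 48 * (h - PowerSeries.C (coeff 23 h) * X ^ 23)) =
        if n < 48 then 0 else coeff (n - 48) h - coeff 23 h * if n - 48 = 23 then 1 else 0 := by
      intro n _
      rw [coeff_X_pow_mul']
      by_cases h48 : n < 48
      · rw [if_neg (by omega), if_pos h48]
      · rw [if_pos (by omega), if_neg h48, map_sub, coeff_C_mul, coeff_X_pow]
    have hz : ∀ n < 48, coeff n (X ^ 48 * (h - PowerSeries.C (coeff 23 h) * X ^ 23)) = 0 := by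
      intro n hn
      rw [hc n (by omega), if_pos hn]
    constructor
    case low => intro n h2 h3; exact hz n (by omega)
    case c71 => rw [hc 71 (by norm_num)]; simp
    case c28 => rw [hz 28 (by norm_num), hz 42 (by norm_num)]
    case c29 => rw [hz 29 (by norm_num), hz 43 (by norm_num), neg_zero]
    case c30 => rw [hz 30 (by norm_num), hz 34 (by norm_num), neg_zero]
    case c32 => rw [hz 32 (by norm_num), hz 36 (by norm_num), neg_zero]
    case c35 => rw [hz 35 (by norm_num), hz 39 (by norm_num)]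
    case c37 => rw [hz 37 (by norm_num), hz 41 (by norm_num)]
    all_goals exact hz _ (by norm_num)
  have h2 : (X ^ 71 : PowerSeries k) ∈ Cube_S O := by
    have h := Cube_2 (Cube_mono hO 69 (by omega))
    rwa [← pow_add] at h
  have h3 := (Cube_S O).add_mem ((Cube_S O).smul_mem (coeff 23 h) h2) (Cube_0 h1)
  have e : coeff 23 h • (X : PowerSeries k) ^ 71 +
      X ^ 48 * (h - PowerSeries.C (coeff 23 h) * X ^ 23) = X ^ 48 * h := by
    rw [smul_eq_C_mul]
    ring
  rwa [e] at h3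

theorem thm_Cube : St_Cube := by
  intro k _ O hO q hq hz
  -- the terms of index below 48
  let p : PowerSeries k := coeff 0 q • (1 : PowerSeries k) + coeff 2 q • (X : PowerSeries k) ^ 2 +
    coeff 4 q • (X : PowerSeries k) ^ 4 +
    ∑ i ∈ Finset.range 24, coeff (24 + i) q • (X : PowerSeries k) ^ (24 + i)
  have h1 : (1 : PowerSeries k) ∈ R O := (R O).one_mem
  have hp : p ∈ Cube_S O := by
    refine (Cube_S O).add_mem ((Cube_S O).add_mem ((Cube_S O).add_mem
      ((Cube_S O).smul_mem _ (Cube_0 h1)) ((Cube_S O).smul_mem _ ?_))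
      ((Cube_S O).smul_mem _ ?_)) ?_
    · have h := Cube_2 h1
      rwa [mul_one] at h
    · have h := Cube_4 h1
      rwa [mul_one] at h
    · exact (Cube_S O).sum_mem fun i hi =>
        (Cube_S O).smul_mem _ (Cube_mid hO i (Finset.mem_range.mp hi))
  have hpO : p ∈ O := by
    refine O.add_mem (O.add_mem (O.add_mem (O.smul_mem O.one_mem _)
      (O.smul_mem (hO.pow_mem 2) _)) (O.smul_mem (hO.pow_mem 4) _)) ?_
    exact O.sum_mem fun i _ => O.smul_mem (hO.pow_mem _) _
  have hdvd : (X : PowerSeries k) ^ 48 ∣ q - p := by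
    rw [X_pow_dvd_iff]
    intro m hm
    have hs : coeff m (∑ i ∈ Finset.range 24, coeff (24 + i) q • (X : PowerSeries k) ^ (24 + i)) =
        if 24 ≤ m then coeff m q else 0 := by
      rw [map_sum]
      simp only [coeff_smul, coeff_X_pow, smul_eq_mul, mul_ite, mul_one, mul_zero]
      by_cases h24 : 24 ≤ m
      · rw [if_pos h24, Finset.sum_eq_single (m - 24)]
        · rw [if_pos (by omega), Nat.add_sub_cancel' h24]
        · intro b _ hb
          rw [if_neg (by omega)]
        · intro hb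
          exact absurd (Finset.mem_range.mpr (by omega)) hb
      · rw [if_neg h24]
        exact Finset.sum_eq_zero fun i _ => if_neg (by omega)
    have hpm : coeff m p = coeff 0 q * (if m = 0 then 1 else 0) +
        coeff 2 q * (if m = 2 then 1 else 0) + coeff 4 q * (if m = 4 then 1 else 0) +
        if 24 ≤ m then coeff m q else 0 := by
      show coeff m (coeff 0 q • (1 : PowerSeries k) + coeff 2 q • (X : PowerSeries k) ^ 2 +
        coeff 4 q • (X : PowerSeries k) ^ 4 +
        ∑ i ∈ Finset.range 24, coeff (24 + i) q • (X : PowerSeries k) ^ (24 + i)) = _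
      rw [map_add, map_add, map_add, hs, coeff_smul, coeff_smul, coeff_smul, coeff_one,
        coeff_X_pow, coeff_X_pow]
      simp only [smul_eq_mul]
    rw [map_sub, hpm]
    by_cases h24 : 24 ≤ m
    · rw [if_neg (by omega), if_neg (by omega), if_neg (by omega), if_pos h24]
      ring
    · rw [if_neg h24]
      by_cases h0 : m = 0
      · subst h0; simp
      · by_cases h2 : m = 2
        · subst h2; simp
        · by_cases h4 : m = 4
          · subst h4; simp
          · rw [if_neg h0, if_neg h2, if_neg h4, hz m (by omega) h0 h2 h4]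
            ring
  obtain ⟨h, hh⟩ := hdvd
  have hhO : h ∈ O := by
    refine hO.div (n := 48) ?_
    rw [← hh]
    exact O.sub_mem hq hpO
  have hfin := (Cube_S O).add_mem hp (Cube_high hO hhO)
  rw [← hh, add_sub_cancel] at hfin
  exact hfin

end Pool.Agent.HWZ
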