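import Mathlib

/-!
helper35. An analytically irreducible one-dimensional Gorenstein local domain with a two-generated
ideal `I`, not principal, such that `I ⊗ I*` is reflexive; residue field `k`, any field `k`.

`Cond f`: the linear conditions on the coefficients of a power series `f`. `R O`: the elements of
the subalgebra `O` of `k⟦X⟧` that satisfy them. `Adm O`: `O` contains `X` and the power series that
are quotients of elements of `O` (for instance `O = k⟦X⟧`, or the power series that are rational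
functions, `Loc k`).
-/

set_option autoImplicit false

namespace Pool.Agent.HWZ

open PowerSeries

variable {k : Type} [Field k]

/-- the conditions on the coefficients `a_n` of `f`: `a_n = 0` for `1 ≤ n ≤ 23` and for
`n = 31, 38, 44, 45, 46, 47, 71`, and `a_28 = a_42`, `a_29 = - a_43`, `a_30 = - a_34`,
`a_32 = - a_36`, `a_35 = a_39`, `a_37 = a_41`. -/
structure Cond (f : PowerSeries k) : Prop where
  low : ∀ n, 1 ≤ n → n ≤ 23 → coeff n f = 0
  c31 : coeff 31 f = 0
  c38 : coeff 38 f = 0
  c44 : coeff 44 f = 0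
  c45 : coeff 45 f = 0
  c46 : coeff 46 f = 0
  c47 : coeff 47 f = 0
  c71 : coeff 71 f = 0
  c28 : coeff 28 f = coeff 42 f
  c29 : coeff 29 f = - coeff 43 f
  c30 : coeff 30 f = - coeff 34 f
  c32 : coeff 32 f = - coeff 36 f
  c35 : coeff 35 f = coeff 39 f
  c37 : coeff 37 f = coeff 41 f

theorem Cond.of_zero {f : PowerSeries k} (h : ∀ n < 72, coeff n f = 0) : Cond f := by
  constructor <;> first
    | (intro n h1 h2; exact h n (by omega))
    | (simp only [h _ (by norm_num : (31 : ℕ) < 72), h _ (by norm_num : (38 : ℕ) < 72),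
        h _ (by norm_num : (44 : ℕ) < 72), h _ (by norm_num : (45 : ℕ) < 72),
        h _ (by norm_num : (46 : ℕ) < 72), h _ (by norm_num : (47 : ℕ) < 72),
        h _ (by norm_num : (71 : ℕ) < 72), h _ (by norm_num : (28 : ℕ) < 72),
        h _ (by norm_num : (42 : ℕ) < 72), h _ (by norm_num : (29 : ℕ) < 72),
        h _ (by norm_num : (43 : ℕ) < 72), h _ (by norm_num : (30 : ℕ) < 72),
        h _ (by norm_num : (34 : ℕ) < 72), h _ (by norm_num : (32 : ℕ) < 72),
        h _ (by norm_num : (36 : ℕ) < 72), h _ (by norm_num : (35 : ℕ) < 72),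
        h _ (by norm_num : (39 : ℕ) < 72), h _ (by norm_num : (37 : ℕ) < 72),
        h _ (by norm_num : (41 : ℕ) < 72), neg_zero])

theorem Cond.add {f g : PowerSeries k} (hf : Cond f) (hg : Cond g) : Cond (f + g) where
  low n h1 h2 := by rw [map_add, hf.low n h1 h2, hg.low n h1 h2, add_zero]
  c31 := by rw [map_add, hf.c31, hg.c31, add_zero]
  c38 := by rw [map_add, hf.c38, hg.c38, add_zero]
  c44 := by rw [map_add, hf.c44, hg.c44, add_zero]
  c45 := by rw [map_add, hf.c45, hg.c45, add_zero]
  c46 := by rw [map_add, hf.c46, hg.c46, add_zero]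
  c47 := by rw [map_add, hf.c47, hg.c47, add_zero]
  c71 := by rw [map_add, hf.c71, hg.c71, add_zero]
  c28 := by rw [map_add, map_add, hf.c28, hg.c28]
  c29 := by rw [map_add, map_add, hf.c29, hg.c29]; ring
  c30 := by rw [map_add, map_add, hf.c30, hg.c30]; ring
  c32 := by rw [map_add, map_add, hf.c32, hg.c32]; ring
  c35 := by rw [map_add, map_add, hf.c35, hg.c35]
  c37 := by rw [map_add, map_add, hf.c37, hg.c37]

theorem Cond.C (a : k) : Cond (PowerSeries.C a) where
  low n h1 h2 := by rw [coeff_C, if_neg (by omega)]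
  c31 := by rw [coeff_C, if_neg (by norm_num)]
  c38 := by rw [coeff_C, if_neg (by norm_num)]
  c44 := by rw [coeff_C, if_neg (by norm_num)]
  c45 := by rw [coeff_C, if_neg (by norm_num)]
  c46 := by rw [coeff_C, if_neg (by norm_num)]
  c47 := by rw [coeff_C, if_neg (by norm_num)]
  c71 := by rw [coeff_C, if_neg (by norm_num)]
  c28 := by rw [coeff_C, coeff_C, if_neg (by norm_num), if_neg (by norm_num)]
  c29 := by rw [coeff_C, coeff_C, if_neg (by norm_num), if_neg (by norm_num), neg_zero]
  c30 := by rw [coeff_C, coeff_C, if_neg (by norm_num), if_neg (by norm_num), neg_zero]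
  c32 := by rw [coeff_C, coeff_C, if_neg (by norm_num), if_neg (by norm_num), neg_zero]
  c35 := by rw [coeff_C, coeff_C, if_neg (by norm_num), if_neg (by norm_num)]
  c37 := by rw [coeff_C, coeff_C, if_neg (by norm_num), if_neg (by norm_num)]

/-- splitting off the first `24` coefficients -/
theorem Cond.split {f : PowerSeries k} (hf : Cond f) :
    ∃ g : PowerSeries k, f = PowerSeries.C (coeff 0 f) + X ^ 24 * g ∧
      (∀ n, coeff n g = coeff (n + 24) f) := by
  have h : (X : PowerSeries k) ^ 24 ∣ f - PowerSeries.C (coeff 0 f) := by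
    rw [X_pow_dvd_iff]
    intro m hm
    rw [map_sub, coeff_C]
    rcases Nat.eq_zero_or_pos m with h0 | h0
    · subst h0; simp
    · rw [if_neg (by omega), hf.low m h0 (by omega), sub_zero]
  obtain ⟨g, hg⟩ := h
  have e : f = PowerSeries.C (coeff 0 f) + X ^ 24 * g := by rw [← hg]; ring
  refine ⟨g, e, fun n => ?_⟩
  conv_rhs => rw [e]
  rw [map_add, coeff_C, if_neg (by omega), zero_add, coeff_X_pow_mul]

theorem Cond.mul {f g : PowerSeries k} (hf : Cond f) (hg : Cond g) : Cond (f * g) := by
  obtain ⟨f', hf1, hf2⟩ := hf.split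
  obtain ⟨g', hg1, hg2⟩ := hg.split
  have e : f * g = PowerSeries.C (coeff 0 f * coeff 0 g) +
      X ^ 24 * (PowerSeries.C (coeff 0 f) * g' + PowerSeries.C (coeff 0 g) * f') +
      X ^ 48 * (f' * g') := by
    conv_lhs => rw [hf1, hg1]
    rw [map_mul]; ring
  have e1 : ∀ n, 1 ≤ n → n < 24 → coeff n (f * g) = 0 := by
    intro n h1 h2
    rw [e, map_add, map_add, coeff_C, if_neg (by omega), coeff_X_pow_mul', if_neg (by omega),
      coeff_X_pow_mul', if_neg (by omega)]
    simp
  have e2 : ∀ n, 24 ≤ n → n < 48 →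
      coeff n (f * g) = coeff 0 f * coeff n g + coeff 0 g * coeff n f := by
    intro n h1 h2
    rw [e, map_add, map_add, coeff_C, if_neg (by omega), coeff_X_pow_mul', if_pos (by omega),
      coeff_X_pow_mul', if_neg (by omega), map_add, coeff_C_mul, coeff_C_mul, hf2, hg2,
      Nat.sub_add_cancel h1]
    ring
  have e3 : coeff 71 (f * g) = 0 := by
    rw [e, map_add, map_add, coeff_C, if_neg (by omega), coeff_X_pow_mul', if_pos (by omega),
      coeff_X_pow_mul', if_pos (by omega), map_add, coeff_C_mul, coeff_C_mul, hf2, hg2,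
      show 71 - 24 + 24 = 71 from rfl, hf.c71, hg.c71, show 71 - 48 = 23 from rfl, coeff_mul]
    simp only [Finset.Nat.antidiagonal_succ, Finset.Nat.antidiagonal_zero, Finset.sum_cons,
      Function.Embedding.coe_prodMap, Function.Embedding.coeFn_mk, Prod.map_apply,
      Finset.map_cons, Finset.map_singleton, Finset.sum_singleton, Function.Embedding.refl_apply,
      Nat.succ_eq_add_one, Nat.reduceAdd, hf2, hg2, hf.c31, hf.c38, hf.c44, hf.c45, hf.c46, hf.c47,
      hf.c28, hf.c29, hf.c30, hf.c32, hf.c35, hf.c37, hg.c31, hg.c38, hg.c44, hg.c45, hg.c46,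
      hg.c47, hg.c28, hg.c29, hg.c30, hg.c32, hg.c35, hg.c37]
    ring
  constructor
  case low => intro n h1 h2; exact e1 n h1 (by omega)
  case c71 => exact e3
  case c31 => rw [e2 _ (by norm_num) (by norm_num), hf.c31, hg.c31]; ring
  case c38 => rw [e2 _ (by norm_num) (by norm_num), hf.c38, hg.c38]; ring
  case c44 => rw [e2 _ (by norm_num) (by norm_num), hf.c44, hg.c44]; ring
  case c45 => rw [e2 _ (by norm_num) (by norm_num), hf.c45, hg.c45]; ring
  case c46 => rw [e2 _ (by norm_num) (by norm_num), hf.c46, hg.c46]; ring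
  case c47 => rw [e2 _ (by norm_num) (by norm_num), hf.c47, hg.c47]; ring
  case c28 =>
    rw [e2 _ (by norm_num) (by norm_num), e2 _ (by norm_num) (by norm_num), hf.c28, hg.c28]
  case c29 =>
    rw [e2 _ (by norm_num) (by norm_num), e2 _ (by norm_num) (by norm_num), hf.c29, hg.c29]; ring
  case c30 =>
    rw [e2 _ (by norm_num) (by norm_num), e2 _ (by norm_num) (by norm_num), hf.c30, hg.c30]; ring
  case c32 =>
    rw [e2 _ (by norm_num) (by norm_num), e2 _ (by norm_num) (by norm_num), hf.c32, hg.c32]; ring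
  case c35 =>
    rw [e2 _ (by norm_num) (by norm_num), e2 _ (by norm_num) (by norm_num), hf.c35, hg.c35]
  case c37 =>
    rw [e2 _ (by norm_num) (by norm_num), e2 _ (by norm_num) (by norm_num), hf.c37, hg.c37]

/-- admissible subalgebras of `k⟦X⟧` -/
structure Adm (O : Subalgebra k (PowerSeries k)) : Prop where
  X_mem : (X : PowerSeries k) ∈ O
  sat : ∀ f ∈ O, ∀ g ∈ O, g ≠ 0 → ∀ h : PowerSeries k, f = g * h → h ∈ O

/-- the ring: the elements of `O` which satisfy the conditions -/
def R (O : Subalgebra k (PowerSeries k)) : Subalgebra k (PowerSeries k) where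
  carrier := {f | f ∈ O ∧ Cond f}
  mul_mem' ha hb := ⟨O.mul_mem ha.1 hb.1, ha.2.mul hb.2⟩
  add_mem' ha hb := ⟨O.add_mem ha.1 hb.1, ha.2.add hb.2⟩
  algebraMap_mem' r := ⟨O.algebraMap_mem r, Cond.C r⟩

theorem mem_R {O : Subalgebra k (PowerSeries k)} {f : PowerSeries k} :
    f ∈ R O ↔ f ∈ O ∧ Cond f := Iff.rfl

theorem Adm.pow_mem {O : Subalgebra k (PowerSeries k)} (hO : Adm O) (n : ℕ) :
    (X : PowerSeries k) ^ n ∈ O := O.pow_mem hO.X_mem n

theorem Adm.C_mem {O : Subalgebra k (PowerSeries k)} (_ : Adm O) (a : k) :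
    (PowerSeries.C a : PowerSeries k) ∈ O := O.algebraMap_mem a

theorem Adm.div {O : Subalgebra k (PowerSeries k)} (hO : Adm O) {n : ℕ} {h : PowerSeries k}
    (h1 : X ^ n * h ∈ O) : h ∈ O :=
  hO.sat _ h1 _ (hO.pow_mem n) (pow_ne_zero n X_ne_zero) h rfl

/-- `X ^ 72 * f` is in the ring -/
theorem Adm.mem72 {O : Subalgebra k (PowerSeries k)} (hO : Adm O) {f : PowerSeries k}
    (hf : f ∈ O) : X ^ 72 * f ∈ R O :=
  ⟨O.mul_mem (hO.pow_mem 72) hf, Cond.of_zero fun n hn => by
    rw [coeff_X_pow_mul', if_neg (by omega)]⟩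

/-- the parameter, the first generator of the ideal -/
noncomputable def xa {O : Subalgebra k (PowerSeries k)} (hO : Adm O) : R O :=
  ⟨X ^ 72, by simpa using hO.mem72 O.one_mem⟩

/-- the second generator of the ideal -/
noncomputable def xb {O : Subalgebra k (PowerSeries k)} (hO : Adm O) : R O :=
  ⟨X ^ 74, by
    have := hO.mem72 (hO.pow_mem 2)
    rwa [← pow_add] at this⟩

/-- the power series which are rational functions -/
def Loc (k : Type) [Field k] : Subalgebra k (PowerSeries k) where
  carrier := {f | ∃ p q : Polynomial k, q.coeff 0 ≠ 0 ∧ (q : PowerSeries k) * f = p}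
  mul_mem' := by
    rintro f g ⟨p, q, hq, h⟩ ⟨p', q', hq', h'⟩
    refine ⟨p * p', q * q', ?_, ?_⟩
    · rw [Polynomial.mul_coeff_zero]; exact mul_ne_zero hq hq'
    · rw [Polynomial.coe_mul, Polynomial.coe_mul, ← h, ← h']; ring
  add_mem' := by
    rintro f g ⟨p, q, hq, h⟩ ⟨p', q', hq', h'⟩
    refine ⟨q' * p + q * p', q * q', ?_, ?_⟩
    · rw [Polynomial.mul_coeff_zero]; exact mul_ne_zero hq hq'
    · rw [Polynomial.coe_mul, Polynomial.coe_add, Polynomial.coe_mul, Polynomial.coe_mul, ← h,
        ← h']; ring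
  algebraMap_mem' r := ⟨Polynomial.C r, 1, by simp, by
    rw [Polynomial.coe_one, Polynomial.coe_C, one_mul]; rfl⟩

end Pool.Agent.HWZ
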