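import Pool.Agent.HWZ.St

/-!
helper3. Large powers of nonunits are divisible.
-/

set_option autoImplicit false

namespace Pool.Agent.HWZ

open PowerSeries

theorem thm_Divide : St_Divide := by
  intro k _ O hO x s hx hs
  classical
  have hs0 : (s : PowerSeries k) ≠ 0 := fun h0 => hs (Subtype.ext h0)
  have hex : ∃ n, coeff n (s : PowerSeries k) ≠ 0 := by
    by_contra hcon
    push Not at hcon
    exact hs0 (PowerSeries.ext fun n => by rw [hcon n, map_zero])
  have hn := Nat.find_spec hex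
  have hlt : ∀ m < Nat.find hex, coeff m (s : PowerSeries k) = 0 := by
    intro m hm
    have := Nat.find_min hex hm
    push Not at this
    exact this
  obtain ⟨u, hu⟩ := X_pow_dvd_iff.2 hlt
  set n := Nat.find hex
  have hu0 : constantCoeff u ≠ 0 := by
    rw [hu, coeff_X_pow_mul', if_pos le_rfl, Nat.sub_self,
      coeff_zero_eq_constantCoeff_apply] at hn
    exact hn
  have huv : u * u⁻¹ = 1 := PowerSeries.mul_inv_cancel _ hu0
  obtain ⟨x', hx'⟩ : (X : PowerSeries k) ∣ (x : PowerSeries k) := X_dvd_iff.2 (by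
    rw [← hx, coeff_zero_eq_constantCoeff_apply])
  have key : (x : PowerSeries k) ^ (n + 72) =
      (s : PowerSeries k) * (X ^ 72 * (u⁻¹ * x' ^ (n + 72))) := by
    rw [hx', hu]
    calc (X * x') ^ (n + 72) = X ^ (n + 72) * x' ^ (n + 72) := mul_pow _ _ _
      _ = (X ^ n * X ^ 72) * ((u * u⁻¹) * x' ^ (n + 72)) := by rw [huv, one_mul, pow_add]
      _ = X ^ n * u * (X ^ 72 * (u⁻¹ * x' ^ (n + 72))) := by ring
  have hO1 : (X : PowerSeries k) ^ 72 * (u⁻¹ * x' ^ (n + 72)) ∈ O :=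
    hO.sat _ (O.pow_mem x.2.1 (n + 72)) _ s.2.1 hs0 _ key
  have hC : Cond ((X : PowerSeries k) ^ 72 * (u⁻¹ * x' ^ (n + 72))) :=
    Cond.of_zero fun m hm => by rw [coeff_X_pow_mul', if_neg (by omega)]
  refine ⟨n + 72, ⟨⟨X ^ 72 * (u⁻¹ * x' ^ (n + 72)), ⟨hO1, hC⟩⟩, ?_⟩⟩
  apply Subtype.ext
  exact key

end Pool.Agent.HWZ
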