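import Pool.Agent.HWZ.St

/-!
# HWZ, module Ess: `R (Loc k)` is essentially of finite type over `k`
-/

set_option autoImplicit false

namespace Pool.Agent.HWZ

open PowerSeries

private theorem Ess_poly_mem {k : Type} [Field k] (p : Polynomial k) :
    (p : PowerSeries k) ∈ Loc k :=
  ⟨p, 1, by simp, by rw [Polynomial.coe_one, one_mul]⟩

private theorem Ess_coe_ne {k : Type} [Field k] (q : Polynomial k) (hq : q.coeff 0 ≠ 0) :
    (q : PowerSeries k) ≠ 0 := by
  intro h
  apply hq
  rw [← Polynomial.coeff_coe, h, map_zero]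

private theorem Ess_adm (k : Type) [Field k] : Adm (Loc k) where
  X_mem := by
    have := Ess_poly_mem (Polynomial.X : Polynomial k)
    rwa [Polynomial.coe_X] at this
  sat := by
    rintro f ⟨pf, qf, hqf, hf⟩ g ⟨pg, qg, hqg, hg⟩ hg0 h hfgh
    have hpg : pg ≠ 0 := by
      intro h0
      rw [h0, Polynomial.coe_zero] at hg
      rcases mul_eq_zero.mp hg with h1 | h1
      · exact Ess_coe_ne qg hqg h1
      · exact hg0 h1
    obtain ⟨p', hp', hnd⟩ := Polynomial.exists_eq_pow_rootMultiplicity_mul_and_not_dvd pg hpg 0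
    rw [Polynomial.C_0, sub_zero] at hp' hnd
    generalize Polynomial.rootMultiplicity 0 pg = n at hp'
    have hp0 : p'.coeff 0 ≠ 0 := fun h0 => hnd (Polynomial.X_dvd_iff.mpr h0)
    have e1 : (X : PowerSeries k) ^ n * ((p' : PowerSeries k) * (qf : PowerSeries k) * h) =
        ((qg * pf : Polynomial k) : PowerSeries k) := by
      have e2 : (X : PowerSeries k) ^ n * (p' : PowerSeries k) = (pg : PowerSeries k) := by
        conv_rhs => rw [hp', Polynomial.coe_mul, Polynomial.coe_pow, Polynomial.coe_X]
      rw [Polynomial.coe_mul, ← hf, hfgh]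
      calc (X : PowerSeries k) ^ n * ((p' : PowerSeries k) * (qf : PowerSeries k) * h)
          = ((X : PowerSeries k) ^ n * (p' : PowerSeries k)) * (qf : PowerSeries k) * h := by ring
        _ = (qg : PowerSeries k) * g * (qf : PowerSeries k) * h := by rw [e2, hg]
        _ = (qg : PowerSeries k) * ((qf : PowerSeries k) * (g * h)) := by ring
    have e3 : (Polynomial.X : Polynomial k) ^ n ∣ qg * pf := by
      rw [Polynomial.X_pow_dvd_iff]
      intro m hm
      have h1 : (X : PowerSeries k) ^ n ∣ ((qg * pf : Polynomial k) : PowerSeries k) :=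
        ⟨_, e1.symm⟩
      rw [PowerSeries.X_pow_dvd_iff] at h1
      rw [← Polynomial.coeff_coe]
      exact h1 m hm
    obtain ⟨p'', hp''⟩ := e3
    refine ⟨p'', p' * qf, ?_, ?_⟩
    · rw [Polynomial.mul_coeff_zero]
      exact mul_ne_zero hp0 hqf
    · rw [hp'', Polynomial.coe_mul, Polynomial.coe_pow, Polynomial.coe_X] at e1
      rw [Polynomial.coe_mul]
      exact mul_left_cancel₀ (pow_ne_zero n X_ne_zero) e1

/-- the polynomials of degree less than `144` in the ring -/
private def EssV (k : Type) [Field k] : Submodule k (R (Loc k)) where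
  carrier := {x | ∃ p : Polynomial k, p.degree < 144 ∧ (x : PowerSeries k) = p}
  add_mem' := by
    rintro x y ⟨p, hp, hx⟩ ⟨q, hq, hy⟩
    refine ⟨p + q, lt_of_le_of_lt (Polynomial.degree_add_le p q) (max_lt hp hq), ?_⟩
    rw [Subalgebra.coe_add, hx, hy, Polynomial.coe_add]
  zero_mem' := ⟨0, by
    rw [Polynomial.degree_zero]
    exact WithBot.bot_lt_coe 144, by rw [Polynomial.coe_zero]; rfl⟩
  smul_mem' := by
    rintro c x ⟨p, hp, hx⟩
    refine ⟨c • p, lt_of_le_of_lt (Polynomial.degree_smul_le c p) hp, ?_⟩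
    rw [Subalgebra.coe_smul, hx, Polynomial.coe_smul]

private theorem EssV_fg (k : Type) [Field k] : (EssV k).FG := by
  let ev : EssV k →ₗ[k] (Fin 144 → k) :=
    { toFun := fun x i => coeff (i : ℕ) ((x : R (Loc k)) : PowerSeries k)
      map_add' := fun x y => by
        funext i
        simp
      map_smul' := fun c x => by
        funext i
        simp }
  have hinj : Function.Injective ev := by
    intro x y hxy
    obtain ⟨p, hp, hx⟩ := x.2
    obtain ⟨q, hq, hy⟩ := y.2
    apply Subtype.ext
    apply Subtype.ext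
    ext n
    by_cases hn : n < 144
    · exact congrFun hxy ⟨n, hn⟩
    · have h144 : (144 : WithBot ℕ) ≤ (n : WithBot ℕ) := by
        exact_mod_cast not_lt.mp hn
      rw [hx, hy, Polynomial.coeff_coe, Polynomial.coeff_coe,
        Polynomial.coeff_eq_zero_of_degree_lt (lt_of_lt_of_le hp h144),
        Polynomial.coeff_eq_zero_of_degree_lt (lt_of_lt_of_le hq h144)]
  have hfin : Module.Finite k (EssV k) := Module.Finite.of_injective ev hinj
  exact Module.Finite.iff_fg.mp hfin

/-- **Ess**. -/
theorem thm_Ess : St_Ess := by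
  intro hUnit k _
  have hAdm := Ess_adm k
  obtain ⟨σ, hσ⟩ := EssV_fg k
  rw [Algebra.essFiniteType_iff]
  refine ⟨σ, ?_⟩
  set B := Algebra.adjoin k (σ : Set (R (Loc k))) with hB
  have hV : ∀ x ∈ EssV k, x ∈ B := by
    intro x hx
    rw [← hσ] at hx
    exact Algebra.span_le_adjoin k _ hx
  let xm : ℕ → R (Loc k) := fun m => ⟨X ^ (72 + m), by
    have := hAdm.mem72 (hAdm.pow_mem m)
    rwa [← pow_add] at this⟩
  have hpoly : ∀ n : ℕ, ∀ (x : R (Loc k)) (p : Polynomial k), (x : PowerSeries k) = p →
      p.natDegree < n → x ∈ B := by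
    intro n
    induction n with
    | zero =>
      intro x p _ h
      exact absurd h (Nat.not_lt_zero _)
    | succ n ih =>
      intro x p hx hp
      by_cases hn : p.natDegree < 144
      · apply hV
        refine ⟨p, ?_, hx⟩
        exact lt_of_le_of_lt Polynomial.degree_le_natDegree (by exact_mod_cast hn)
      · have h144 : 144 ≤ p.natDegree := not_lt.mp hn
        have hxm : ∀ m, 72 + m < p.natDegree → xm m ∈ B := by
          intro m hm
          refine ih (xm m) (Polynomial.X ^ (72 + m)) ?_ ?_
          · rw [Polynomial.coe_pow, Polynomial.coe_X]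
          · rw [Polynomial.natDegree_X_pow]
            omega
        have h1 : xm 0 ∈ B := hxm 0 (by omega)
        have h2 : xm (p.natDegree - 144) ∈ B := hxm _ (by omega)
        have h3 : x - p.leadingCoeff • (xm 0 * xm (p.natDegree - 144)) ∈ B := by
          refine ih _ p.eraseLead ?_ ?_
          · have h4 : (((xm 0 * xm (p.natDegree - 144) : R (Loc k))) : PowerSeries k) =
                X ^ p.natDegree := by
              show (X : PowerSeries k) ^ (72 + 0) * X ^ (72 + (p.natDegree - 144)) = _
              have h5 : 72 + 0 + (72 + (p.natDegree - 144)) = p.natDegree := by omega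
              rw [← pow_add, h5]
            rw [Subalgebra.coe_sub, Subalgebra.coe_smul, h4, hx]
            have h5 : (p : PowerSeries k) = (p.eraseLead : PowerSeries k) +
                p.leadingCoeff • (X : PowerSeries k) ^ p.natDegree := by
              conv_lhs => rw [← p.eraseLead_add_C_mul_X_pow]
              rw [Polynomial.coe_add, Polynomial.coe_mul, Polynomial.coe_pow, Polynomial.coe_X,
                Polynomial.coe_C, PowerSeries.smul_eq_C_mul]
            rw [h5, add_sub_cancel_right]
          · have h6 := Polynomial.eraseLead_natDegree_le p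
            omega
        have h7 := B.add_mem h3 (B.smul_mem (B.mul_mem h1 h2) p.leadingCoeff)
        rwa [sub_add_cancel] at h7
  intro f
  obtain ⟨p, q, hq, hqf⟩ := f.2.1
  have hq0 : constantCoeff (q : PowerSeries k) ≠ 0 := by
    rw [← coeff_zero_eq_constantCoeff_apply, Polynomial.coeff_coe]
    exact hq
  set r : Polynomial k := trunc 72 ((q : PowerSeries k)⁻¹) with hr
  have hinv : (q : PowerSeries k) * (q : PowerSeries k)⁻¹ = 1 := PowerSeries.mul_inv_cancel _ hq0
  have hdvd : (X : PowerSeries k) ^ 72 ∣ (q : PowerSeries k)⁻¹ - (r : PowerSeries k) := by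
    rw [PowerSeries.X_pow_dvd_iff]
    intro m hm
    rw [map_sub, Polynomial.coeff_coe, hr, coeff_trunc, if_pos hm, sub_self]
  obtain ⟨h, hh⟩ := hdvd
  have ht : ((q * r : Polynomial k) : PowerSeries k) =
      PowerSeries.C 1 + -(X ^ 72 * ((q : PowerSeries k) * h)) := by
    have e1 : (r : PowerSeries k) = (q : PowerSeries k)⁻¹ - X ^ 72 * h := by
      rw [← hh]
      ring
    rw [Polynomial.coe_mul, e1, mul_sub, hinv, map_one]
    ring
  have hz : ∀ n < 72, coeff n (-(X ^ 72 * ((q : PowerSeries k) * h))) = 0 := by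
    intro n hn
    rw [map_neg, coeff_X_pow_mul', if_neg (by omega), neg_zero]
  have hcond : Cond ((q * r : Polynomial k) : PowerSeries k) := by
    rw [ht]
    exact (Cond.C 1).add (Cond.of_zero hz)
  let t : R (Loc k) := ⟨((q * r : Polynomial k) : PowerSeries k), Ess_poly_mem _, hcond⟩
  have ht0 : coeff 0 (t : PowerSeries k) ≠ 0 := by
    show coeff 0 ((q * r : Polynomial k) : PowerSeries k) ≠ 0
    rw [ht, map_add, hz 0 (by norm_num), add_zero, coeff_C, if_pos rfl]
    exact one_ne_zero
  refine ⟨t, hpoly _ t (q * r) rfl (Nat.lt_succ_self _), (hUnit (Loc k) hAdm t).mpr ht0, ?_⟩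
  refine hpoly _ (f * t) (p * r) ?_ (Nat.lt_succ_self _)
  show (f : PowerSeries k) * ((q * r : Polynomial k) : PowerSeries k) = _
  rw [Polynomial.coe_mul, Polynomial.coe_mul, ← hqf]
  ring

end Pool.Agent.HWZ
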