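import Pool.Agent.HWZ.Defs
import Pool.Agent.HWC.Defs

/-!
helper35. Statements of the modules of HWZ (two-generated ideals failing (HWC) over an analytically
irreducible ring with residue field `k`, any `k`). Every statement carries its proof. Do not change
this file. Notation in the docstrings: `O` admissible, `R = R O`, `a = X ^ 72`, `b = X ^ 74`,
`J = {u ∈ R : X ^ 2 * u ∈ R}`.
-/

set_option autoImplicit false

namespace Pool.Agent.HWZ

open PowerSeries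

/-- UNIT. If `c = coeff 0 x ≠ 0`, put `h = 1 - C c⁻¹ * x` (in `R`, `coeff 0 h = 0`, so
`h = X ^ 24 * h'` by `Cond.split`), `h ^ 3 = X ^ 72 * h' ^ 3`, `G = (1 - h ^ 3)⁻¹` (power series
inverse), `G = 1 + h ^ 3 * G`, so `Cond G` (`Cond.of_zero` for `h ^ 3 * G`), `G ∈ O` by `Adm.sat`
(`1 = (1 - h ^ 3) * G`), and `x * (C c⁻¹ * (1 + h + h ^ 2) * G) = 1`. -/
def St_Unit : Prop := ∀ {k : Type} [Field k] (O : Subalgebra k (PowerSeries k)) (_ : Adm O)
  (x : R O), IsUnit x ↔ coeff 0 (x : PowerSeries k) ≠ 0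

/-- DIVIDE. Adapt `Pool/Agent/HWX/Divide.lean` (`HWY/Divide.lean`): `s = X ^ n * u`, `u` with
nonzero constant coefficient, `x = X * x'`, `x ^ (n + 72) = s * (X ^ 72 * (u⁻¹ * x' ^ (n + 72)))`;
the second factor satisfies `Cond` by `Cond.of_zero` and is in `O` by `Adm.sat`
(`f = x ^ (n + 72)`, `g = s`). -/
def St_Divide : Prop := ∀ {k : Type} [Field k] (O : Subalgebra k (PowerSeries k)) (_ : Adm O)
  (x s : R O), coeff 0 (x : PowerSeries k) = 0 → s ≠ 0 → ∃ N : ℕ, s ∣ x ^ N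

/-- NOETHER. As in `Pool/Agent/HWX/Noether.lean`: `IsNoetherianRing.of_prime_ne_bot`; a nonzero
prime `P` is `{x | coeff 0 x = 0}` (by DIVIDE and UNIT). That ideal is finitely generated: let
`ev : (Fin 144 → k) →ₗ[k] PowerSeries k`, `c ↦ ∑ n, C (c n) * X ^ n` (or `monomial n (c n)`), and let
`W` be the `k`-subspace of the `c` with `ev c ∈ R`, `c 0 = 0`; `W` is finitely generated over `k`
(`IsNoetherian k (Fin 144 → k)`), by `w_1, …, w_r`. Every `x` in the ideal is `ev c + X ^ 144 * h`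
with `c n = coeff n x` (`n < 144`), `h ∈ O` (`Adm.div`), `c ∈ W` (the conditions only see the
coefficients of index `≤ 71`), and `X ^ 144 * h = (X ^ 72 * h) * X ^ 72`, where `X ^ 72 * h ∈ R` and
`X ^ 72 = ev (single 72 1)` with `single 72 1 ∈ W`. So the `ev (w_i)` generate. -/
def St_Noether : Prop := St_Unit → St_Divide → ∀ {k : Type} [Field k]
  (O : Subalgebra k (PowerSeries k)) (_ : Adm O), IsNoetherianRing (R O)

/-- DUAL. An element `a` of the ring with `coeff 143 (r * a) = 0` for all `r ∈ R` is divisible by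
`X ^ 72`. Proof: `r = X ^ (143 - n)`, `n ≤ 71`, gives `coeff n a = 0`, so `a = X ^ 72 * g`, `g ∈ O`,
and `coeff 71 (r * g) = 0` for all `r ∈ R` (`coeff_X_pow_mul`). `r = 1`: `g_71 = 0`.
`r = X ^ (71 - n)` for `n = 1, …, 23` (exponents `48, …, 70`): `g_n = 0`. Now the twelve elements
(each of them satisfies `Cond`) `X^24, X^26, X^40, X^25, X^27, X^33` give
`g_47 = g_45 = g_31 = g_46 = g_44 = g_38 = 0`; `X^30 - X^34`: `g_41 = g_37`;
`X^28 + X^42`: `g_43 + g_29 = 0`; `X^32 - X^36`: `g_39 = g_35`; `X^29 - X^43`: `g_42 = g_28`;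
`X^35 + X^39`: `g_36 + g_32 = 0`; `X^37 + X^41`: `g_34 + g_30 = 0`. So `Cond g`. -/
def St_Dual : Prop := ∀ {k : Type} [Field k] (O : Subalgebra k (PowerSeries k)) (hO : Adm O)
  (a : R O), (∀ r : R O, coeff 143 ((r * a : R O) : PowerSeries k) = 0) → xa hO ∣ a

/-- FROBENIUS (general). `R` a commutative `k`-algebra, `x ∈ R`, `φ : R → k` linear with
`φ (x r) = 0`, such that `φ (r a) = 0` for all `r` implies `x ∣ a`; `m` a subset (the maximal ideal)
with `r - algebraMap c ∈ m` for some `c`, for every `r`, and products of `N` elements of `m`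
divisible by `x`. Then `(x)` is irreducible, if it is not the unit ideal.
Proof. Let `J ⊓ J' = (x)`, both `≠ (x)`. (i) An ideal `J ≥ (x)`, `J ≠ (x)`, contains `a` with
`x ∤ a` and `x ∣ r a` for all `r ∈ m`: take `a0 ∈ J` not divisible by `x`; among the lists `l` of
elements of `m` with `x ∤ l.prod * a0` (the empty list is one, all have length `< N`) take one of
maximal length, `a = l.prod * a0` (or: induction on `n`, for lists of length `N - n`, as `Gor_ind` in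
`Pool/Agent/HWX/Gor.lean`). (ii) `φ a ≠ 0` for such `a` (else `φ (r a) = c φ a + φ ((r - c) a) = 0`
for all `r`). (iii) For `a ∈ J`, `a' ∈ J'` as in (i), `b = φ a' • a - φ a • a'` has `φ b = 0` and
`x ∣ r b` for `r ∈ m`, so `x ∣ b` as in (ii); hence `φ a' • a ∈ J ⊓ J' = (x)`, and `x ∣ a`, a
contradiction. -/
def St_Frob : Prop := ∀ (k R : Type) [Field k] [CommRing R] [Algebra k R] (x : R)
  (φ : R →ₗ[k] k) (m : Set R) (N : ℕ),
  (∀ r, φ (x * r) = 0) → (∀ a, (∀ r, φ (r * a) = 0) → x ∣ a) → ¬ IsUnit x →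
  (∀ r, ∃ c : k, r - algebraMap k R c ∈ m) →
  (∀ l : List R, (∀ y ∈ l, y ∈ m) → l.length = N → x ∣ l.prod) →
  InfIrred (Ideal.span {x})

/-- GORENSTEIN. FROBENIUS with `x = xa hO`, `φ = coeff 143`, `m = {r | coeff 0 r = 0}`, `N = 6`:
an element of `m` is `X ^ 24 * y` (`Cond.split`), a product of six is `X ^ 144 * y = X ^ 72 *
(X ^ 72 * y)`, `y ∈ O` (`Adm.div`), `Adm.mem72`. `φ (x r) = coeff 71 r = 0`. -/
def St_Gor : Prop := St_Dual → St_Frob → ∀ {k : Type} [Field k]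
  (O : Subalgebra k (PowerSeries k)) (hO : Adm O), InfIrred (Ideal.span {xa hO})

/-- PACKAGE. Adapt `Pool/Agent/HWX/Pack.lean` (`HWY/Pack.lean`). -/
def St_Pack : Prop := St_Unit → St_Divide → ∀ {k : Type} [Field k]
  (O : Subalgebra k (PowerSeries k)) (hO : Adm O), InfIrred (Ideal.span {xa hO}) →
  ∃ _ : IsLocalRing (R O),
    (∀ x : R O, x ∈ IsLocalRing.maximalIdeal (R O) ↔ coeff 0 (x : PowerSeries k) = 0) ∧
    HWC.GorOne (R O) ∧ HWC.Pkg (R O) ∧
    Function.Surjective (algebraMap k (IsLocalRing.ResidueField (R O)))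

/-- HIGH. Everything in `X ^ 72 O` is a sum of two products of elements of `J`: with
`h' = C (h_21) * X^21 + C (h_23) * X^23 + g'`,
`X^72 h = X^25 * (X^48 (C h_21 X^20 + C h_23 X^22)) + X^24 * (X^48 g')`; all four factors are in `J`
(`X^48 g ∈ J` for `g ∈ O` iff `g_23 = g_21 = 0`; `X^24, X^25 ∈ J`). -/
def St_High : Prop := ∀ {k : Type} [Field k] (O : Subalgebra k (PowerSeries k)) (_ : Adm O)
  (h : PowerSeries k), h ∈ O → ∃ x y x' y' : PowerSeries k,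
    (x ∈ R O ∧ X ^ 2 * x ∈ R O) ∧ (y ∈ R O ∧ X ^ 2 * y ∈ R O) ∧
    (x' ∈ R O ∧ X ^ 2 * x' ∈ R O) ∧ (y' ∈ R O ∧ X ^ 2 * y' ∈ R O) ∧
    X ^ 72 * h = x * y + x' * y'

/-- PRODUCTS. Let `T` be the `k`-span of the products `x * y`, `x, y ∈ J`. By HIGH
`X ^ 72 * h ∈ T` for `h ∈ O`. Put `y = X ^ 2`,
`u1 = 1, u2 = y + y^8, u3 = y^3 - y^5`, `v1 = 1, v2 = y^5 + y^7, v3 = y - y^4 - y^6 - y^8`;
`X^24 * u_i` and `X^25 * v_i` are in `J` (check `Cond` for it and for `X^2` times it). Modulo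
`X ^ 72 O`: odd exponents, `X^49 * (…)`: `u1v1 = 1`; `u3v2 = y^8 - y^12`; `u2v2 = y^6+y^8+y^13+y^15`;
`u2v1 = y + y^8`; `u1v3`: gives `y^4`; `u3v3 = y^4 - y^6 - y^7 + y^13`: gives `y^7`;
`u1v2`: `y^5`; `u3v1`: `y^3`; `u2v3 = y^2 - y^5 - y^7 - y^12 - y^14 - y^16`: `y^2`. So
`X^(49+2j) ∈ T`, `j = 0, …, 8`. Even exponents, `X^48 * (…)`: `u1u1 = 1`; `y v1v1 = y`;
`u1u2`: `y^8`; `y v1v2 = y^6 + y^8`: `y^6`; `u3u3 = y^6 - 2y^8 + y^10`: `y^10`;
`y v2v2 = y^11 + 2y^13 + y^15`: `y^11`; `u2u3 = y^4 - y^6 + y^11 - y^13`: `y^4`;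
`A = u2u2 = y^2 + 2y^9 + y^16`, `B = y v1v3 = y^2 - y^5 - y^7 - y^9`, `C = u1u3 = y^3 - y^5`,
`D = y^3 + y^9` (from `y v3v3`), `E = y^7 + y^9` (from `y v2v3 = y^7 + y^9 - y^10 - 2y^12 - 2y^14 -
y^16`): `y^9 = A - B - E - D + C`, then `y^7, y^3, y^5, y^2`. So `X^(48+2j) ∈ T`, `j = 0, …, 11`.
Hence the claim. -/
def St_Prod : Prop := St_High → ∀ {k : Type} [Field k] (O : Subalgebra k (PowerSeries k))
  (_ : Adm O) (v : PowerSeries k), v ∈ O → (∀ n < 48, coeff n v = 0) → coeff 67 v = 0 →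
  coeff 69 v = 0 → coeff 71 v = 0 → ∃ (n : ℕ) (x y : Fin n → PowerSeries k),
    (∀ i, x i ∈ R O ∧ X ^ 2 * x i ∈ R O) ∧ (∀ i, y i ∈ R O ∧ X ^ 2 * y i ∈ R O) ∧
    v = ∑ i, x i * y i

/-- SQUARE. `v, X^2 v, X^4 v ∈ R` implies that the coefficients of index `< 48` and `67, 69, 71`
vanish. Proof: `coeff (n + 2) (X ^ 2 * v) = coeff n v`; `Cond` for the three series and linear
algebra (with `b_i = coeff (24 + i) v`: `b_16 = b_17 = b_18 = b_19 = b_10 = b_3 = 0`,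
`b_5 = b_12 = b_20 = b_21 = 0`, `b_7 = b_14 = b_22 = b_23 = 0`, `b_2 = b_16`, `b_4 = b_18`,
`b_6 = -b_10`, `b_8 = -b_12`, `b_13 = b_17`, `b_9 = b_13`, `b_11 = b_7`, `b_15 = b_11`,
`b_1 = -b_15`, `b_0 = b_14`). -/
def St_Square : Prop := ∀ {k : Type} [Field k] (v : PowerSeries k), Cond v → Cond (X ^ 2 * v) →
  Cond (X ^ 4 * v) →
  (∀ n < 48, coeff n v = 0) ∧ coeff 67 v = 0 ∧ coeff 69 v = 0 ∧ coeff 71 v = 0

/-- NOT FREE. As in `thm_Mod` of `Pool/Agent/HWX/Mod.lean`: let `b0` be an element of a basis of `I`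
with coordinate `p : I → R`. `X^71 * b0` is in `I`: `b0 = X^72 r + X^74 r'`,
`X^71 (r + X^2 r') = C c * X^71 + X^72 h`, `h ∈ O`, so
`X^71 b0 = X^72 (X^72 h) + X^74 (C c * X^69)`, `X^69 ∈ R`. Then
`X^72 • (X^71 b0) = (X^143) • b0`, so `X^72 * p (X^71 b0) = X^143` and `p (X^71 b0) = X^71`, which
violates `c71`. (`I ≠ 0` has a nonempty basis.) -/
def St_NotFree : Prop := ∀ {k : Type} [Field k] (O : Subalgebra k (PowerSeries k)) (hO : Adm O),
  ¬ Module.Free (R O) (Ideal.span {xa hO, xb hO} : Ideal (R O))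

/-- CUBE. If `q ∈ O` and `q_n = 0` for `n < 24`, `n ≠ 0, 2, 4`, then
`q = r0 + X^2 r1 + X^4 r2` with `r_i ∈ R`. Proof: let `S` be the set (a `k`-submodule) of such sums.
`1, X^2, X^4 ∈ S`; `X^48 h ∈ S` for `h ∈ O` (`X^48 h = C h_23 X^71 + X^48 (h - C h_23 X^23)` and
`X^71 = X^2 X^69`). It remains to see `X^(24+i) ∈ S` for `i < 24`. From `X^24 V_0`, with
`y = X^2`, even exponents: `1, y, y^8, y^3-y^5, y^2+y^9, y^4-y^6` and `y`, `y^2` times these:
`1, y, y^2, y^3, y^8, y^9, y^10`, then `y^5` (from `y^3-y^5`), `y^7` (from `y^5-y^7`),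
`y^6` (`y^6-y^8`), `y^4` (`y^4-y^6`), `y^11` (`y^4+y^11`). Odd exponents (`X` times
`1, y, y^4, y^2-y^9, y^5+y^7, y^6+y^8`): `1, y, y^2, y^3, y^4, y^5, y^6`, `y^9` (`y^2-y^9`),
`y^7` (`y^5+y^7`), `y^8` (`y^6+y^8`), `y^10` (`y^3-y^10`), `y^11` (`y^4-y^11`). -/
def St_Cube : Prop := ∀ {k : Type} [Field k] (O : Subalgebra k (PowerSeries k)) (_ : Adm O)
  (q : PowerSeries k), q ∈ O → (∀ n < 24, n ≠ 0 → n ≠ 2 → n ≠ 4 → coeff n q = 0) →
  ∃ r0 r1 r2 : PowerSeries k, r0 ∈ R O ∧ r1 ∈ R O ∧ r2 ∈ R O ∧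
    q = r0 + X ^ 2 * r1 + X ^ 4 * r2

/-- EXTENSIONS. Every extension of `I` by `I` splits. Proof. Let `i : I → E`, `p : E → I`. Choose
`e, f ∈ E` with `p e = ia := ⟨a, _⟩`, `p f = ib := ⟨b, _⟩`. For `u ∈ J`, `u' = X^2 u` we have
`u • ib = u' • ia`, so `u • f - u' • e = i (ρ u)`, `ρ u ∈ I` unique, and `ρ (r u) = r ρ u`. Put
`ρ (X^24) = X^72 ρ'` (`ρ' ∈ R + X^2 R`). From `ρ (X^24 * u) = X^24 • ρ u = u • ρ (X^24)`:
`X^24 ρ(u) = X^72 ρ' u` as power series. For `u, u2 ∈ J` we have `u2 * ρ(u) ∈ X^72 R` (as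
`ρ u ∈ I = X^72 (R + X^2 R)` and `u2, X^2 u2 ∈ R`), so `u u2 ρ' = X^24 r`, `r ∈ R`, and
`coeff 95 (u u2 ρ') = coeff 71 r = 0`. By PRODUCTS `coeff 95 (v ρ') = 0` for every `v ∈ O` with
`v_n = 0` for `n < 48` and `n = 67, 69, 71`; `v = X^(95-m)` gives `coeff m ρ' = 0` for `m < 48`,
except `m = 24, 26, 28` (`95 - m = 71, 69, 67`). So `ρ' = X^24 q`, `q ∈ O`, and by CUBE
`q = r0 + X^2 r1 + X^4 r2`. Then `ρ u = X^72 q u` for `u ∈ J`. Put
`f' = f - i (r0 • ia + r1 • ib)`, `e' = e + i (r2 • ib)`: then `u • f' = u' • e'` for `u ∈ J`.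
The map `(r, s) ↦ r • e' + s • f'` on `R × R` kills the kernel of `(r, s) ↦ r • ia + s • ib` (if
`r a + s b = 0` then `r = - X^2 s`, so `s ∈ J`), so it factors through `I`. -/
def St_Ext : Prop := St_High → St_Prod → St_Cube →
  ∀ {k : Type} [Field k] (O : Subalgebra k (PowerSeries k)) (hO : Adm O)
  (E : Type) [AddCommGroup E] [Module (R O) E]
  (i : (Ideal.span {xa hO, xb hO} : Ideal (R O)) →ₗ[R O] E)
  (p : E →ₗ[R O] (Ideal.span {xa hO, xb hO} : Ideal (R O))),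
  Function.Injective i → Function.Surjective p → Function.Exact i p →
  ∃ σ : (Ideal.span {xa hO, xb hO} : Ideal (R O)) →ₗ[R O] E, p ∘ₗ σ = LinearMap.id

/-- ADMISSIBLE. `Loc k` and `⊤` are admissible. -/
def St_Adm : Prop := ∀ (k : Type) [Field k],
  Adm (⊤ : Subalgebra k (PowerSeries k)) ∧ Adm (Loc k)

/-- ESSENTIALLY OF FINITE TYPE. `Algebra.essFiniteType_iff`: a finite set `σ` such that every
`f ∈ R (Loc k)` has `t ∈ adjoin σ`, a unit of `R (Loc k)`, with `f t ∈ adjoin σ`. Let `R0` be the set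
of polynomials (as power series) in `R (Loc k)`. `σ`: finitely many elements of `R0` such that every
element of `R0` of degree `< 144` is a `k`-combination of them (as in NOETHER; `σ ∋ X^72`); then
`adjoin σ ⊇ R0` by induction on the degree (`X^n = X^72 X^(n-72)` for `n ≥ 144`; subtract the terms
of degree `≥ 144`). Given `f`, `q f = p` with `q_0 ≠ 0`: take a polynomial `r` with `q r = 1` modulo
`X ^ 72` (`r` the truncation of the inverse series of `q`); `t = q r ∈ R0`, `f t = p r` is a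
polynomial and in `R (Loc k)`. `t` is a unit by UNIT. -/
def St_Ess : Prop := St_Unit → ∀ (k : Type) [Field k], Algebra.EssFiniteType k (R (Loc k))

end Pool.Agent.HWZ
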