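import Mathlib
import Pool.Agent.HWZ.St

/-!
helper59. HWZ, module Ext: every extension of `I` by `I` splits.
-/

set_option autoImplicit false

namespace Pool.Agent.HWZ

open PowerSeries

/-- the abstract form: `I = (a, t a)` -/
private theorem Ext_abs {k S : Type} [Field k] [CommRing S] [IsDomain S] [Algebra k S]
    (A : Subalgebra k S) (a b : A) (t : S) (hab : (b : S) = t * (a : S)) (ha : (a : S) ≠ 0)
    (u0 u0' : A) (hu0 : (u0' : S) = t * (u0 : S)) (hne : (u0 : S) ≠ 0)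
    (key : ∀ ρ : S, (∃ r s : A, ρ = (r : S) + t * (s : S)) →
      (∀ x x' y y' : A, (x' : S) = t * (x : S) → (y' : S) = t * (y : S) →
        ∃ z : A, (x : S) * (y : S) * ρ = (u0 : S) * (z : S)) →
      ∃ r0 r1 r2 : A, ρ = (u0 : S) * ((r0 : S) + t * (r1 : S) + t ^ 2 * (r2 : S)))
    (E : Type) [AddCommGroup E] [Module A E]
    (i : (Ideal.span {a, b} : Ideal A) →ₗ[A] E)
    (p : E →ₗ[A] (Ideal.span {a, b} : Ideal A))
    (hi : Function.Injective i) (hp : Function.Surjective p) (hex : Function.Exact i p) :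
    ∃ σ : (Ideal.span {a, b} : Ideal A) →ₗ[A] E, p ∘ₗ σ = LinearMap.id := by
  have hia : a ∈ (Ideal.span {a, b} : Ideal A) := Ideal.subset_span (by simp)
  have hib : b ∈ (Ideal.span {a, b} : Ideal A) := Ideal.subset_span (by simp)
  obtain ⟨ia, hia'⟩ : ∃ ia : (Ideal.span {a, b} : Ideal A), (ia : A) = a := ⟨⟨_, hia⟩, rfl⟩
  obtain ⟨ib, hib'⟩ : ∃ ib : (Ideal.span {a, b} : Ideal A), (ib : A) = b := ⟨⟨_, hib⟩, rfl⟩
  obtain ⟨e, he⟩ := hp ia
  obtain ⟨f, hf⟩ := hp ib
  have hpi : ∀ w, p (i w) = 0 := fun w => (hex (i w)).2 ⟨w, rfl⟩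
  -- the map ρ
  have hrho : ∀ u u' : A, (u' : S) = t * (u : S) → ∃ w, i w = u • f - u' • e := by
    intro u u' hu
    have h1 : p (u • f - u' • e) = 0 := by
      rw [map_sub, map_smul, map_smul, he, hf]
      apply Subtype.ext
      apply Subtype.ext
      rw [Submodule.coe_sub, Submodule.coe_smul, Submodule.coe_smul, hia', hib', smul_eq_mul,
        smul_eq_mul, Subalgebra.coe_sub, Subalgebra.coe_mul, Subalgebra.coe_mul, hab, hu]
      simp only [ZeroMemClass.coe_zero]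
      ring
    exact (hex _).1 h1
  obtain ⟨w0, hw0⟩ := hrho u0 u0' hu0
  have hmem : ∀ w : (Ideal.span {a, b} : Ideal A), ∃ r s : A,
      ((w : A) : S) = (a : S) * ((r : S) + t * (s : S)) := by
    intro w
    obtain ⟨r, s, h⟩ := Ideal.mem_span_pair.1 w.2
    refine ⟨r, s, ?_⟩
    rw [← h, Subalgebra.coe_add, Subalgebra.coe_mul, Subalgebra.coe_mul, hab]
    ring
  obtain ⟨r, r', hrr⟩ := hmem w0
  obtain ⟨ρ, hρ⟩ : ∃ ρ : S, ρ = (r : S) + t * (r' : S) := ⟨_, rfl⟩
  rw [← hρ] at hrr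
  -- comparison
  have hcmp : ∀ (u u' : A) (w : (Ideal.span {a, b} : Ideal A)),
      (u' : S) = t * (u : S) → i w = u • f - u' • e →
      (u0 : S) * ((w : A) : S) = (u : S) * ((a : S) * ρ) := by
    intro u u' w hu hw
    have h0 : u0 * u' = u * u0' := by
      apply Subtype.ext
      rw [Subalgebra.coe_mul, Subalgebra.coe_mul, hu, hu0]
      ring
    have h1 : i (u0 • w) = i (u • w0) := by
      rw [map_smul, map_smul, hw, hw0, smul_sub, smul_sub, smul_smul, smul_smul, smul_smul,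
        smul_smul, h0, mul_comm u0 u]
    have h2 : u0 * (w : A) = u * (w0 : A) := by
      have h3 := hi h1
      have h4 := congrArg (fun x : (Ideal.span {a, b} : Ideal A) => (x : A)) h3
      simpa only [Submodule.coe_smul, smul_eq_mul] using h4
    have h5 := congrArg (fun x : A => (x : S)) h2
    simp only [Subalgebra.coe_mul] at h5
    rw [h5, hrr]
  obtain ⟨r0, r1, r2, hqr⟩ := key ρ ⟨r, r', hρ⟩ (by
    intro x x' y y' hx hy
    obtain ⟨w, hw⟩ := hrho x x' hx
    obtain ⟨s, s', hss⟩ := hmem w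
    have h1 := hcmp _ _ w hx hw
    rw [hss] at h1
    have h2 : (u0 : S) * ((s : S) + t * (s' : S)) = (x : S) * ρ := by
      refine mul_left_cancel₀ ha ?_
      linear_combination h1
    refine ⟨y * s + y' * s', ?_⟩
    rw [Subalgebra.coe_add, Subalgebra.coe_mul, Subalgebra.coe_mul, hy]
    linear_combination (-(y : S)) * h2)
  -- the value of ρ on `u`
  have hval : ∀ (u u' : A) (w : (Ideal.span {a, b} : Ideal A)),
      (u' : S) = t * (u : S) → i w = u • f - u' • e →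
      ((w : A) : S) = (a : S) * (((r0 : S) + t * (r1 : S) + t ^ 2 * (r2 : S)) * (u : S)) := by
    intro u u' w hu hw
    have h1 := hcmp u u' w hu hw
    rw [hqr] at h1
    refine mul_left_cancel₀ hne ?_
    rw [h1]
    ring
  -- the new lifts
  obtain ⟨c, hc⟩ : ∃ c : (Ideal.span {a, b} : Ideal A), c = r0 • ia + r1 • ib := ⟨_, rfl⟩
  obtain ⟨d, hd⟩ : ∃ d : (Ideal.span {a, b} : Ideal A), d = r2 • ib := ⟨_, rfl⟩
  have hcS : ((c : A) : S) = (a : S) * ((r0 : S) + t * (r1 : S)) := by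
    rw [hc, Submodule.coe_add, Submodule.coe_smul, Submodule.coe_smul, hia', hib', smul_eq_mul,
      smul_eq_mul, Subalgebra.coe_add, Subalgebra.coe_mul, Subalgebra.coe_mul, hab]
    ring
  have hdS : ((d : A) : S) = (a : S) * (t * (r2 : S)) := by
    rw [hd, Submodule.coe_smul, hib', smul_eq_mul, Subalgebra.coe_mul, hab]
    ring
  have hpe : p (e + i d) = ia := by rw [map_add, hpi, add_zero, he]
  have hpf : p (f - i c) = ib := by
    rw [map_sub, hpi, hf]
    exact sub_zero _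
  have hrel : ∀ u u' : A, (u' : S) = t * (u : S) → u • (f - i c) = u' • (e + i d) := by
    intro u u' hu
    obtain ⟨w, hw⟩ := hrho u u' hu
    have h1 : w = u • c + u' • d := by
      apply Subtype.ext
      apply Subtype.ext
      rw [hval u u' w hu hw, Submodule.coe_add, Submodule.coe_smul, Submodule.coe_smul,
        smul_eq_mul, smul_eq_mul, Subalgebra.coe_add, Subalgebra.coe_mul, Subalgebra.coe_mul,
        hcS, hdS, hu]
      ring
    rw [h1, map_add, map_smul, map_smul] at hw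
    rw [smul_sub, smul_add]
    have h2 : u • f = u • i c + u' • i d + u' • e := by rw [hw]; abel
    rw [h2]
    abel
  -- the section
  obtain ⟨Ψ, hΨ⟩ : ∃ Ψ : (A × A) →ₗ[A] (Ideal.span {a, b} : Ideal A),
      ∀ t, Ψ t = t.1 • ia + t.2 • ib :=
    ⟨(LinearMap.toSpanSingleton A _ ia).coprod (LinearMap.toSpanSingleton A _ ib), fun t => rfl⟩
  obtain ⟨Φ, hΦ⟩ : ∃ Φ : (A × A) →ₗ[A] E, ∀ t, Φ t = t.1 • (e + i d) + t.2 • (f - i c) :=
    ⟨(LinearMap.toSpanSingleton A _ (e + i d)).coprod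
      (LinearMap.toSpanSingleton A _ (f - i c)), fun t => rfl⟩
  have hsurj : Function.Surjective Ψ := by
    intro x
    obtain ⟨r, s, h⟩ := Ideal.mem_span_pair.1 x.2
    refine ⟨(r, s), ?_⟩
    rw [hΨ]
    apply Subtype.ext
    rw [Submodule.coe_add, Submodule.coe_smul, Submodule.coe_smul, hia', hib', smul_eq_mul,
      smul_eq_mul]
    exact h
  have hker : LinearMap.ker Ψ ≤ LinearMap.ker Φ := by
    rintro ⟨r, s⟩ h
    rw [LinearMap.mem_ker, hΨ] at h
    rw [LinearMap.mem_ker, hΦ]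
    have h1 : (r : S) * (a : S) + (s : S) * (t * (a : S)) = 0 := by
      have h2 := congrArg (fun x : (Ideal.span {a, b} : Ideal A) => ((x : A) : S)) h
      simpa only [Submodule.coe_add, Submodule.coe_smul, smul_eq_mul, Subalgebra.coe_add,
        Subalgebra.coe_mul, hia', hib', hab, ZeroMemClass.coe_zero] using h2
    have h4 : ((-r : A) : S) = t * (s : S) := by
      refine mul_left_cancel₀ ha ?_
      rw [Subalgebra.coe_neg]
      linear_combination (-1 : S) * h1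
    show r • (e + i d) + s • (f - i c) = 0
    rw [hrel s (-r) h4, neg_smul, add_neg_cancel]
  refine ⟨((LinearMap.ker Ψ).liftQ Φ hker) ∘ₗ
    (Ψ.quotKerEquivOfSurjective hsurj).symm.toLinearMap, ?_⟩
  refine LinearMap.ext fun x => ?_
  obtain ⟨t, rfl⟩ := hsurj x
  have h1 : (Ψ.quotKerEquivOfSurjective hsurj).symm (Ψ t) = (LinearMap.ker Ψ).mkQ t := by
    rw [LinearEquiv.symm_apply_eq]
    rfl
  have h2 : p (Φ t) = Ψ t := by
    rw [hΦ, hΨ, map_add, map_smul, map_smul, hpe, hpf]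
  show p (((LinearMap.ker Ψ).liftQ Φ hker) ((Ψ.quotKerEquivOfSurjective hsurj).symm (Ψ t))) = _
  rw [h1, Submodule.mkQ_apply, Submodule.liftQ_apply, h2]
  rfl

variable {k : Type} [Field k]

private theorem Ext_c24 : Cond ((X : PowerSeries k) ^ 24) := by
  constructor <;> first
    | (intro n h1 h2; rw [coeff_X_pow, if_neg (by omega)])
    | (simp only [coeff_X_pow]; norm_num)

private theorem Ext_c26 : Cond ((X : PowerSeries k) ^ 26) := by
  constructor <;> first
    | (intro n h1 h2; rw [coeff_X_pow, if_neg (by omega)])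
    | (simp only [coeff_X_pow]; norm_num)

/-- the coefficients of `ρ'` -/
private theorem Ext_coeff (hP : St_High → St_Prod) (hH : St_High)
    {O : Subalgebra k (PowerSeries k)} (hO : Adm O) (ρ : PowerSeries k)
    (h : ∀ x y : PowerSeries k, (x ∈ R O ∧ X ^ 2 * x ∈ R O) → (y ∈ R O ∧ X ^ 2 * y ∈ R O) →
      coeff 95 (x * y * ρ) = 0) (m : ℕ) (hm : m < 48) (h1 : m ≠ 24) (h2 : m ≠ 26)
    (h3 : m ≠ 28) : coeff m ρ = 0 := by
  obtain ⟨n, x, y, hx, hy, hv⟩ := hP hH hH O hO (X ^ (95 - m)) (hO.pow_mem _)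
    (fun j hj => by rw [coeff_X_pow, if_neg (by omega)])
    (by rw [coeff_X_pow, if_neg (by omega)]) (by rw [coeff_X_pow, if_neg (by omega)])
    (by rw [coeff_X_pow, if_neg (by omega)])
  have h4 : coeff 95 (X ^ (95 - m) * ρ) = 0 := by
    rw [hv, Finset.sum_mul, map_sum]
    exact Finset.sum_eq_zero fun i _ => h _ _ (hx i) (hy i)
  rw [coeff_X_pow_mul', if_pos (by omega), show 95 - (95 - m) = m by omega] at h4
  exact h4

private theorem Ext_key (hH : St_High) (hP : St_Prod) (hCube : St_Cube)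
    (O : Subalgebra k (PowerSeries k)) (hO : Adm O) (ρ : PowerSeries k)
    (h0 : ∃ r s : R O, ρ = (r : PowerSeries k) + X ^ 2 * (s : PowerSeries k))
    (h : ∀ x x' y y' : R O, (x' : PowerSeries k) = X ^ 2 * (x : PowerSeries k) →
      (y' : PowerSeries k) = X ^ 2 * (y : PowerSeries k) →
      ∃ z : R O, (x : PowerSeries k) * (y : PowerSeries k) * ρ = X ^ 24 * (z : PowerSeries k)) :
    ∃ r0 r1 r2 : R O, ρ = X ^ 24 * ((r0 : PowerSeries k) + X ^ 2 * (r1 : PowerSeries k) +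
      (X ^ 2) ^ 2 * (r2 : PowerSeries k)) := by
  obtain ⟨r, s, hρ⟩ := h0
  have hρO : ρ ∈ O := by
    rw [hρ]
    exact O.add_mem r.2.1 (O.mul_mem (hO.pow_mem 2) s.2.1)
  have hco := Ext_coeff (fun _ => hP) hH hO ρ (by
    intro x y hx hy
    obtain ⟨z, hz⟩ := h ⟨x, hx.1⟩ ⟨X ^ 2 * x, hx.2⟩ ⟨y, hy.1⟩ ⟨X ^ 2 * y, hy.2⟩ rfl rfl
    have hz' : x * y * ρ = X ^ 24 * (z : PowerSeries k) := hz
    rw [hz', coeff_X_pow_mul', if_pos (by norm_num)]
    exact z.2.2.c71)
  have hdiv : (X : PowerSeries k) ^ 24 ∣ ρ := by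
    rw [X_pow_dvd_iff]
    intro m hm
    exact hco m (by omega) (by omega) (by omega) (by omega)
  obtain ⟨q, hq⟩ := hdiv
  have hqO : q ∈ O := hO.div (n := 24) (by rw [← hq]; exact hρO)
  obtain ⟨r0, r1, r2, hr0, hr1, hr2, hqr⟩ := hCube O hO q hqO (by
    intro n hn h0 h2 h4
    have h5 := hco (n + 24) (by omega) (by omega) (by omega) (by omega)
    rw [hq, coeff_X_pow_mul', if_pos (by omega), Nat.add_sub_cancel] at h5
    exact h5)
  refine ⟨⟨r0, hr0⟩, ⟨r1, hr1⟩, ⟨r2, hr2⟩, ?_⟩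
  show ρ = X ^ 24 * (r0 + X ^ 2 * r1 + (X ^ 2) ^ 2 * r2)
  rw [hq, hqr, ← pow_mul]

theorem thm_Ext : St_Ext := by
  intro hH hP hCube k _ O hO E _ _ i p hi hp hex
  refine Ext_abs (R O) (xa hO) (xb hO) (X ^ 2) ?_ (pow_ne_zero _ X_ne_zero)
    ⟨X ^ 24, hO.pow_mem 24, Ext_c24⟩ ⟨X ^ 26, hO.pow_mem 26, Ext_c26⟩ ?_
    (pow_ne_zero _ X_ne_zero) ?_ E i p hi hp hex
  · show (X : PowerSeries k) ^ 74 = X ^ 2 * X ^ 72
    rw [← pow_add]
  · show (X : PowerSeries k) ^ 26 = X ^ 2 * X ^ 24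
    rw [← pow_add]
  · intro ρ h0 h
    exact Ext_key hH hP hCube O hO ρ h0 h

end Pool.Agent.HWZ
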