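import Pool.Agent.HWZ.St

/-! HWZ Gor (helper32): the ideal `(X ^ 72)` is irreducible. -/

set_option autoImplicit false

namespace Pool.Agent.HWZ

open PowerSeries

variable {k : Type} [Field k]

private theorem Gor_list (O : Subalgebra k (PowerSeries k)) (l : List (R O)) :
    (∀ y ∈ l, coeff 0 (y : PowerSeries k) = 0) →
      ∃ g : PowerSeries k, ((l.prod : R O) : PowerSeries k) = X ^ (24 * l.length) * g := by
  induction l with
  | nil =>
    intro _
    refine ⟨1, ?_⟩
    simp
  | cons y l ih =>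
    intro h
    obtain ⟨g, hg⟩ := ih fun z hz => h z (List.mem_cons_of_mem _ hz)
    obtain ⟨f, hf, -⟩ := Cond.split (mem_R.1 y.2).2
    rw [h y List.mem_cons_self, map_zero, zero_add] at hf
    refine ⟨f * g, ?_⟩
    rw [List.prod_cons]
    show (y : PowerSeries k) * ((l.prod : R O) : PowerSeries k) = _
    rw [hg, List.length_cons, mul_add, mul_one, pow_add]
    conv_lhs => rw [hf]
    ring

theorem thm_Gor : St_Gor := by
  intro hD hF k _ O hO
  let φ : R O →ₗ[k] k := (PowerSeries.coeff 143).comp (R O).val.toLinearMap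
  refine hF k (R O) (xa hO) φ {r | coeff 0 (r : PowerSeries k) = 0} 6 ?_ ?_ ?_ ?_ ?_
  · intro r
    show coeff 143 (X ^ 72 * (r : PowerSeries k)) = 0
    rw [coeff_X_pow_mul', if_pos (by norm_num)]
    exact (mem_R.1 r.2).2.c71
  · intro a ha
    exact hD O hO a ha
  · intro hu
    obtain ⟨y, hy⟩ := isUnit_iff_exists_inv.1 hu
    have h1 : (X : PowerSeries k) ^ 72 * (y : PowerSeries k) = 1 :=
      congrArg (fun z : R O => (z : PowerSeries k)) hy
    have h2 := congrArg (coeff 0) h1
    rw [coeff_X_pow_mul', if_neg (by norm_num), coeff_zero_eq_constantCoeff_apply, map_one] at h2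
    exact zero_ne_one h2
  · intro r
    refine ⟨coeff 0 (r : PowerSeries k), ?_⟩
    show coeff 0 ((r : PowerSeries k) - PowerSeries.C (coeff 0 (r : PowerSeries k))) = 0
    rw [map_sub, coeff_C, if_pos rfl, sub_self]
  · intro l hl hlen
    obtain ⟨g, hg⟩ := Gor_list O l hl
    rw [hlen] at hg
    have hgO : g ∈ O := by
      apply hO.div (n := 24 * 6)
      rw [← hg]
      exact (mem_R.1 (l.prod).2).1
    refine ⟨⟨X ^ 72 * g, hO.mem72 hgO⟩, ?_⟩
    apply Subtype.ext
    show ((l.prod : R O) : PowerSeries k) = X ^ 72 * (X ^ 72 * g)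
    rw [hg, ← mul_assoc, ← pow_add]

end Pool.Agent.HWZ
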