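import Pool.Agent.HWZ.St

/-!
helper58. Module Noether of HWZ: the ring is Noetherian (Cohen).
-/

set_option autoImplicit false

namespace Pool.Agent.HWZ

open PowerSeries

/-- the first `144` coefficients -/
private noncomputable def Noether_tr {k : Type} [Field k] (O : Subalgebra k (PowerSeries k)) :
    R O →ₗ[k] (Fin 144 → k) :=
  LinearMap.pi fun n => (coeff (n : ℕ)) ∘ₗ (R O).val.toLinearMap

private theorem Noether_tr_apply {k : Type} [Field k] (O : Subalgebra k (PowerSeries k))
    (x : R O) (n : Fin 144) : Noether_tr O x n = coeff (n : ℕ) (x : PowerSeries k) := rfl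

theorem thm_Noether : St_Noether := by
  intro hUnit hDiv k _ O hO
  refine IsNoetherianRing.of_prime_ne_bot fun P hP hP0 => ?_
  obtain ⟨s, hs, hs0⟩ := Submodule.exists_mem_ne_zero_of_ne_bot hP0
  have hmem : ∀ x : R O, coeff 0 (x : PowerSeries k) = 0 → x ∈ P := by
    intro x hx
    obtain ⟨N, hN⟩ := hDiv O hO x s hx hs0
    exact hP.mem_of_pow_mem N (P.mem_of_dvd hN hs)
  have hxa : xa hO ∈ P := by
    refine hmem _ ?_
    show coeff 0 ((X : PowerSeries k) ^ 72) = 0
    rw [coeff_X_pow, if_neg (by norm_num)]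
  obtain ⟨S, hS⟩ : ((P.restrictScalars k).map (Noether_tr O)).FG := IsNoetherian.noetherian _
  have hex : ∀ w ∈ S, ∃ p ∈ P, Noether_tr O p = w := by
    intro w hw
    have h1 : w ∈ (P.restrictScalars k).map (Noether_tr O) := by
      rw [← hS]
      exact Submodule.subset_span hw
    obtain ⟨p, hp, hpw⟩ := h1
    exact ⟨p, hp, hpw⟩
  choose! f hf using hex
  obtain ⟨I, hI⟩ : ∃ I : Ideal (R O),
      I = Ideal.span (insert (xa hO) (f '' (S : Set (Fin 144 → k)))) := ⟨_, rfl⟩
  have hIfg : I.FG := by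
    rw [hI]
    exact Submodule.fg_span ((S.finite_toSet.image f).insert _)
  have hIxa : xa hO ∈ I := by
    rw [hI]
    exact Ideal.subset_span (Or.inl rfl)
  have hIf : ∀ w ∈ S, f w ∈ I := by
    intro w hw
    rw [hI]
    exact Ideal.subset_span (Or.inr ⟨w, hw, rfl⟩)
  have hIP : I ≤ P := by
    rw [hI, Ideal.span_le]
    rintro x (rfl | ⟨w, hw, rfl⟩)
    · exact hxa
    · exact (hf w hw).1
  have hPI : P ≤ I := by
    intro x hx
    have h1 : (P.restrictScalars k).map (Noether_tr O) ≤
        (I.restrictScalars k).map (Noether_tr O) := by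
      rw [← hS, Submodule.span_le]
      intro w hw
      exact ⟨f w, hIf w hw, (hf w hw).2⟩
    obtain ⟨y, hy, hxy⟩ := h1 ⟨x, hx, rfl⟩
    have h2 : (X : PowerSeries k) ^ 144 ∣ ((x - y : R O) : PowerSeries k) := by
      rw [X_pow_dvd_iff]
      intro m hm
      have h3 := congrFun hxy ⟨m, hm⟩
      rw [Noether_tr_apply, Noether_tr_apply] at h3
      show coeff m ((x : PowerSeries k) - (y : PowerSeries k)) = 0
      rw [map_sub]
      exact sub_eq_zero.2 h3.symm
    obtain ⟨h, hh⟩ := h2
    have hO' : h ∈ O := hO.div (n := 144) (by rw [← hh]; exact (x - y).2.1)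
    have h4 : x - y = ⟨X ^ 72 * h, hO.mem72 hO'⟩ * xa hO := by
      apply Subtype.ext
      rw [hh]
      show _ = X ^ 72 * h * X ^ 72
      ring
    have h5 : x - y ∈ I := by
      rw [h4]
      exact I.mul_mem_left _ hIxa
    have h6 : x = (x - y) + y := by ring
    rw [h6]
    exact I.add_mem h5 hy
  rw [le_antisymm hPI hIP]
  exact hIfg

end Pool.Agent.HWZ
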