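import Pool.Agent.HWZ.St

/-!
HWZ, module NotFree: the ideal generated by `X ^ 72` and `X ^ 74` is not free.
-/

set_option autoImplicit false

namespace Pool.Agent.HWZ

open PowerSeries

variable {k : Type} [Field k]

private lemma NotFree_cond (c : k) : Cond (PowerSeries.C c * X ^ 69) where
  low n h1 h2 := by rw [coeff_C_mul_X_pow, if_neg (by omega)]
  c31 := by rw [coeff_C_mul_X_pow, if_neg (by norm_num)]
  c38 := by rw [coeff_C_mul_X_pow, if_neg (by norm_num)]
  c44 := by rw [coeff_C_mul_X_pow, if_neg (by norm_num)]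
  c45 := by rw [coeff_C_mul_X_pow, if_neg (by norm_num)]
  c46 := by rw [coeff_C_mul_X_pow, if_neg (by norm_num)]
  c47 := by rw [coeff_C_mul_X_pow, if_neg (by norm_num)]
  c71 := by rw [coeff_C_mul_X_pow, if_neg (by norm_num)]
  c28 := by
    rw [coeff_C_mul_X_pow, if_neg (by norm_num), coeff_C_mul_X_pow, if_neg (by norm_num)]
  c29 := by
    rw [coeff_C_mul_X_pow, if_neg (by norm_num), coeff_C_mul_X_pow, if_neg (by norm_num),
      neg_zero]
  c30 := by
    rw [coeff_C_mul_X_pow, if_neg (by norm_num), coeff_C_mul_X_pow, if_neg (by norm_num),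
      neg_zero]
  c32 := by
    rw [coeff_C_mul_X_pow, if_neg (by norm_num), coeff_C_mul_X_pow, if_neg (by norm_num),
      neg_zero]
  c35 := by
    rw [coeff_C_mul_X_pow, if_neg (by norm_num), coeff_C_mul_X_pow, if_neg (by norm_num)]
  c37 := by
    rw [coeff_C_mul_X_pow, if_neg (by norm_num), coeff_C_mul_X_pow, if_neg (by norm_num)]

/-- `X ^ 71` times an element of the ideal, as an element of the ideal -/
private lemma NotFree_mul (O : Subalgebra k (PowerSeries k)) (hO : Adm O) (z : R O)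
    (hz : z ∈ (Ideal.span {xa hO, xb hO} : Ideal (R O))) :
    ∃ y : R O, y ∈ (Ideal.span {xa hO, xb hO} : Ideal (R O)) ∧
      (y : PowerSeries k) = X ^ 71 * (z : PowerSeries k) := by
  obtain ⟨r, r', hr⟩ := Ideal.mem_span_pair.1 hz
  have hq : (r : PowerSeries k) + X ^ 2 * (r' : PowerSeries k) ∈ O :=
    O.add_mem r.2.1 (O.mul_mem (hO.pow_mem 2) r'.2.1)
  set q : PowerSeries k := (r : PowerSeries k) + X ^ 2 * (r' : PowerSeries k) with hqdef
  have hdvd : (X : PowerSeries k) ^ 1 ∣ q - PowerSeries.C (coeff 0 q) := by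
    rw [X_pow_dvd_iff]
    intro m hm
    obtain rfl : m = 0 := by omega
    rw [map_sub, coeff_C, if_pos rfl, sub_self]
  obtain ⟨h, hh⟩ := hdvd
  have hhO : h ∈ O := by
    apply hO.div (n := 1)
    rw [← hh]
    exact O.sub_mem hq (hO.C_mem _)
  refine ⟨⟨X ^ 72 * h, hO.mem72 hhO⟩ * xa hO + ⟨PowerSeries.C (coeff 0 q) * X ^ 69,
    ⟨O.mul_mem (hO.C_mem _) (hO.pow_mem 69), NotFree_cond _⟩⟩ * xb hO, ?_, ?_⟩
  · exact Ideal.mem_span_pair.2 ⟨_, _, rfl⟩
  · have hz' : (z : PowerSeries k) =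
        (r : PowerSeries k) * X ^ 72 + (r' : PowerSeries k) * X ^ 74 := by
      rw [← hr]
      rfl
    have e1 : q = PowerSeries.C (coeff 0 q) + X ^ 1 * h := by
      rw [← hh]
      ring
    show X ^ 72 * h * X ^ 72 + PowerSeries.C (coeff 0 q) * X ^ 69 * X ^ 74 =
      X ^ 71 * (z : PowerSeries k)
    have e2 : (z : PowerSeries k) = X ^ 72 * q := by
      rw [hz', hqdef]
      ring
    rw [e2]
    conv_rhs => rw [e1]
    ring

/-- **NotFree**. The ideal `(X ^ 72, X ^ 74)` is not free. -/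
theorem thm_NotFree : St_NotFree := by
  intro k _ O hO hfree
  let I : Ideal (R O) := Ideal.span {xa hO, xb hO}
  let b := Module.Free.chooseBasis (R O) I
  have hxa : xa hO ∈ I := Ideal.subset_span (Set.mem_insert _ _)
  have hne : Nonempty (Module.Free.ChooseBasisIndex (R O) I) := by
    by_contra hemp
    rw [not_nonempty_iff] at hemp
    have hsub : Subsingleton I := by
      have := b.repr.toEquiv.subsingleton_congr
      rw [this]
      infer_instance
    have h1 : (⟨xa hO, hxa⟩ : I) = 0 := Subsingleton.elim _ _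
    have h2 : xa hO = 0 := congrArg Subtype.val h1
    have h3 : (X ^ 72 : PowerSeries k) = 0 := congrArg Subtype.val h2
    exact pow_ne_zero 72 X_ne_zero h3
  obtain ⟨i0⟩ := hne
  obtain ⟨y, hy, hyz⟩ := NotFree_mul O hO (b i0).1 (b i0).2
  let r : R O := ⟨X ^ 72 * X ^ 71, hO.mem72 (hO.pow_mem 71)⟩
  have hyr : xa hO • (⟨y, hy⟩ : I) = r • b i0 := by
    apply Subtype.ext
    apply Subtype.ext
    show X ^ 72 * (y : PowerSeries k) = X ^ 72 * X ^ 71 * ((b i0).1 : PowerSeries k)
    rw [hyz, mul_assoc]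
  have h1 := congrArg (fun z => b.repr z i0) hyr
  simp only [map_smul, Finsupp.smul_apply, smul_eq_mul, Module.Basis.repr_self,
    Finsupp.single_eq_same, mul_one] at h1
  have h2 : (X ^ 72 * ((b.repr ⟨y, hy⟩ i0 : R O) : PowerSeries k) : PowerSeries k) =
      X ^ 72 * X ^ 71 := congrArg Subtype.val h1
  have h3 := mul_left_cancel₀ (pow_ne_zero 72 X_ne_zero) h2
  have h4 : coeff 71 ((b.repr ⟨y, hy⟩ i0 : R O) : PowerSeries k) = 0 :=
    (b.repr ⟨y, hy⟩ i0).2.2.c71
  rw [h3, coeff_X_pow_self] at h4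
  exact one_ne_zero h4

end Pool.Agent.HWZ
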