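import Pool.Agent.HWZ.St

/-!
HWZ, module UNIT: an element of the ring is a unit iff its constant coefficient is not zero.
-/

set_option autoImplicit false

namespace Pool.Agent.HWZ

open PowerSeries

private theorem Unit_ne {k : Type} [Field k] (O : Subalgebra k (PowerSeries k)) (x : R O)
    (hx : IsUnit x) : coeff 0 (x : PowerSeries k) ≠ 0 := by
  intro h0
  obtain ⟨y, hy⟩ := hx.exists_right_inv
  have h1 : (x : PowerSeries k) * (y : PowerSeries k) = 1 := by
    have h := congrArg Subtype.val hy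
    simpa using h
  have h2 : coeff 0 ((x : PowerSeries k) * (y : PowerSeries k)) = coeff 0 (1 : PowerSeries k) := by
    rw [h1]
  rw [coeff_zero_eq_constantCoeff_apply, map_mul, ← coeff_zero_eq_constantCoeff_apply, h0,
    zero_mul, coeff_zero_eq_constantCoeff_apply, map_one] at h2
  exact zero_ne_one h2

private theorem Unit_of {k : Type} [Field k] (O : Subalgebra k (PowerSeries k)) (hO : Adm O)
    (x : R O) (hc : coeff 0 (x : PowerSeries k) ≠ 0) : IsUnit x := by
  set c := coeff 0 (x : PowerSeries k) with hcdef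
  set z : PowerSeries k := (x : PowerSeries k) with hz
  have hzR : z ∈ R O := x.2
  have hCR : (PowerSeries.C c⁻¹ : PowerSeries k) ∈ R O := ⟨hO.C_mem _, Cond.C _⟩
  set h : PowerSeries k := 1 - PowerSeries.C c⁻¹ * z with hh
  have hhR : h ∈ R O := (R O).sub_mem (R O).one_mem ((R O).mul_mem hCR hzR)
  have h0 : coeff 0 h = 0 := by
    rw [hh, map_sub, coeff_C_mul, ← hcdef, inv_mul_cancel₀ hc, coeff_zero_eq_constantCoeff_apply,
      map_one, sub_self]
  obtain ⟨h', e1, _⟩ := hhR.2.split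
  rw [h0, map_zero, zero_add] at e1
  have e3 : h ^ 3 = X ^ 72 * h' ^ 3 := by
    rw [e1, mul_pow, ← pow_mul]
  have hcc : constantCoeff (1 - h ^ 3) ≠ 0 := by
    have h1 : constantCoeff h = 0 := by
      rw [← coeff_zero_eq_constantCoeff_apply]; exact h0
    rw [map_sub, map_one, map_pow, h1]
    norm_num
  set G : PowerSeries k := (1 - h ^ 3)⁻¹ with hG
  have hGm : (1 - h ^ 3) * G = 1 := PowerSeries.mul_inv_cancel _ hcc
  have hne : (1 - h ^ 3 : PowerSeries k) ≠ 0 := by
    intro h1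
    rw [h1, zero_mul] at hGm
    exact zero_ne_one hGm
  have hGO : G ∈ O := hO.sat 1 O.one_mem (1 - h ^ 3)
    (O.sub_mem O.one_mem (O.pow_mem hhR.1 3)) hne G hGm.symm
  have hGe : G = PowerSeries.C 1 + X ^ 72 * (h' ^ 3 * G) := by
    rw [map_one, ← mul_assoc, ← e3]
    linear_combination hGm
  have hGC : Cond G := by
    rw [hGe]
    exact (Cond.C 1).add (Cond.of_zero fun n hn => by
      rw [coeff_X_pow_mul', if_neg (by omega)])
  have hGR : G ∈ R O := ⟨hGO, hGC⟩
  have hy : PowerSeries.C c⁻¹ * (1 + h + h ^ 2) * G ∈ R O :=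
    (R O).mul_mem ((R O).mul_mem hCR ((R O).add_mem ((R O).add_mem (R O).one_mem hhR)
      ((R O).pow_mem hhR 2))) hGR
  have hmul : z * (PowerSeries.C c⁻¹ * (1 + h + h ^ 2) * G) = 1 := by
    have h1 : PowerSeries.C c⁻¹ * z = 1 - h := by rw [hh]; ring
    calc z * (PowerSeries.C c⁻¹ * (1 + h + h ^ 2) * G)
        = (PowerSeries.C c⁻¹ * z) * (1 + h + h ^ 2) * G := by ring
      _ = (1 - h ^ 3) * G := by rw [h1]; ring
      _ = 1 := hGm
  exact IsUnit.of_mul_eq_one ⟨_, hy⟩ (Subtype.ext hmul)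

theorem thm_Unit : St_Unit := by
  intro k _ O hO x
  exact ⟨Unit_ne O x, Unit_of O hO x⟩

end Pool.Agent.HWZ
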